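import Mathlib

/-!
Project RES (MP_d365ae_co), helper10: the arithmetic part of `B46.lean`.
-/

namespace Res12

namespace B46

/-- The numerical data of a matching `{e, f}`: `d i j` the outer codegrees of the nine cells,
`tl v c` and `tr a c` the indicators of the eighteen inner triples. -/
structure Arr (d tl tr : Fin 3 → Fin 3 → ℕ) : Prop where
  d4 : ∀ i j, d i j ≤ 4
  tl1 : ∀ i j, tl i j ≤ 1
  tr1 : ∀ i j, tr i j ≤ 1
  full : ∀ i j, d i j = 4 → ∃ v v' : Fin 3, v ≠ i ∧ v' ≠ j ∧ (∀ c, c ≠ v' → tl v c = 0) ∧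
    (∀ a, a ≠ v → tr a v' = 0)

/-- The total. -/
def tot (d tl tr : Fin 3 → Fin 3 → ℕ) : ℕ :=
  (d 0 0 + d 0 1 + d 0 2 + (d 1 0 + d 1 1 + d 1 2) + (d 2 0 + d 2 1 + d 2 2)) +
  (tl 0 0 + tl 0 1 + tl 0 2 + (tl 1 0 + tl 1 1 + tl 1 2) + (tl 2 0 + tl 2 1 + tl 2 2)) +
  (tr 0 0 + tr 0 1 + tr 0 2 + (tr 1 0 + tr 1 1 + tr 1 2) + (tr 2 0 + tr 2 1 + tr 2 2))

theorem fin3 : ∀ c : Fin 3, c = 0 ∨ c = 1 ∨ c = 2 := by decide

theorem fin3' : ∀ c : Fin 3, c ≠ 0 → c = 1 ∨ c = 2 := by decide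

/-- Additional hypotheses for a graph `G_0` with at least four edges. -/
structure ArrB (d tl tr : Fin 3 → Fin 3 → ℕ) : Prop extends Arr d tl tr where
  T : ∀ j k, j ≠ k → d 1 j + d 2 k ≤ 4
  I1 : ∀ c, tr 1 c = 0 ∨ d 2 c = 0
  I2 : ∀ c, tr 2 c = 0 ∨ d 1 c = 0

theorem Arr.row0 {d tl tr : Fin 3 → Fin 3 → ℕ} (h : Arr d tl tr) :
    d 0 0 + d 0 1 + d 0 2 + (tl 1 0 + tl 1 1 + tl 1 2) + (tl 2 0 + tl 2 1 + tl 2 2) +
      (tr 0 0 + tr 0 1 + tr 0 2) ≤ 18 := by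
  have l10 := h.tl1 1 0
  have l11 := h.tl1 1 1
  have l12 := h.tl1 1 2
  have l20 := h.tl1 2 0
  have l21 := h.tl1 2 1
  have l22 := h.tl1 2 2
  have r0 := h.tr1 0 0
  have r1 := h.tr1 0 1
  have r2 := h.tr1 0 2
  have d0 := h.d4 0 0
  have d1 := h.d4 0 1
  have d2 := h.d4 0 2
  by_cases hex : ∃ j, d 0 j = 4
  · obtain ⟨j, hj⟩ := hex
    obtain ⟨v, v', hv, -, h1, h2⟩ := h.full 0 j hj
    obtain rfl | rfl := fin3' v hv
    · have q0 := h1 0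
      have q1 := h1 1
      have q2 := h1 2
      have p0 := h2 0 (by decide)
      obtain rfl | rfl | rfl := fin3 v' <;> simp at q0 q1 q2 <;> omega
    · have q0 := h1 0
      have q1 := h1 1
      have q2 := h1 2
      have p0 := h2 0 (by decide)
      obtain rfl | rfl | rfl := fin3 v' <;> simp at q0 q1 q2 <;> omega
  · push Not at hex
    have e0 := hex 0
    have e1 := hex 1
    have e2 := hex 2
    omega

theorem ArrB.b3 {d tl tr : Fin 3 → Fin 3 → ℕ} (h : ArrB d tl tr)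
    (hn : ∀ r, r ≠ 0 → ∀ j, d r j ≠ 4) : tot d tl tr ≤ 33 := by
  have hr := h.toArr.row0
  have l00 := h.tl1 0 0
  have l01 := h.tl1 0 1
  have l02 := h.tl1 0 2
  have r10 := h.tr1 1 0
  have r11 := h.tr1 1 1
  have r12 := h.tr1 1 2
  have r20 := h.tr1 2 0
  have r21 := h.tr1 2 1
  have r22 := h.tr1 2 2
  have d10 := h.d4 1 0
  have d11 := h.d4 1 1
  have d12 := h.d4 1 2
  have d20 := h.d4 2 0
  have d21 := h.d4 2 1
  have d22 := h.d4 2 2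
  have n10 := hn 1 (by decide) 0
  have n11 := hn 1 (by decide) 1
  have n12 := hn 1 (by decide) 2
  have n20 := hn 2 (by decide) 0
  have n21 := hn 2 (by decide) 1
  have n22 := hn 2 (by decide) 2
  have t01 := h.T 0 1 (by decide)
  have t12 := h.T 1 2 (by decide)
  have t20 := h.T 2 0 (by decide)
  have i10 := h.I1 0
  have i11 := h.I1 1
  have i12 := h.I1 2
  have i20 := h.I2 0
  have i21 := h.I2 1
  have i22 := h.I2 2
  have s1 : tr 2 0 + d 1 0 + (tr 1 1 + d 2 1) ≤ 4 := by omega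
  have s2 : tr 2 1 + d 1 1 + (tr 1 2 + d 2 2) ≤ 4 := by omega
  have s3 : tr 2 2 + d 1 2 + (tr 1 0 + d 2 0) ≤ 4 := by omega
  unfold tot
  omega

/-- The rows part in the presence of a full cell `(1, j)` with `tr 1 c0 = 0`. -/
theorem rows_part {a b μ ν : Fin 3 → ℕ} (ha : ∀ c, a c ≤ 4) (hb : ∀ c, b c ≤ 4)
    (hμ : ∀ c, μ c ≤ 1) (hν : ∀ c, ν c ≤ 1) (T : ∀ j k, j ≠ k → a j + b k ≤ 4)
    (I1 : ∀ c, μ c = 0 ∨ b c = 0) (I2 : ∀ c, ν c = 0 ∨ a c = 0) {j c0 : Fin 3} (hj : a j = 4)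
    (hjc : c0 ≠ j) (h0 : μ c0 = 0) :
    (a 0 + a 1 + a 2) + (b 0 + b 1 + b 2) + (μ 0 + μ 1 + μ 2) + (ν 0 + ν 1 + ν 2) ≤ 14 ∧
    (a c0 ≤ 3 → (a 0 + a 1 + a 2) + (b 0 + b 1 + b 2) + (μ 0 + μ 1 + μ 2) +
      (ν 0 + ν 1 + ν 2) ≤ 13) := by
  have a0 := ha 0
  have a1 := ha 1
  have a2 := ha 2
  have b0 := hb 0
  have b1 := hb 1
  have b2 := hb 2
  have m0 := hμ 0
  have m1 := hμ 1
  have m2 := hμ 2
  have n0 := hν 0
  have n1 := hν 1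
  have n2 := hν 2
  have t01 := T 0 1 (by decide)
  have t12 := T 1 2 (by decide)
  have t20 := T 2 0 (by decide)
  have t10 := T 1 0 (by decide)
  have t21 := T 2 1 (by decide)
  have t02 := T 0 2 (by decide)
  have i10 := I1 0
  have i11 := I1 1
  have i12 := I1 2
  have i20 := I2 0
  have i21 := I2 1
  have i22 := I2 2
  obtain rfl | rfl | rfl := fin3 j <;> obtain rfl | rfl | rfl := fin3 c0 <;>
    first
    | exact absurd rfl hjc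
    | (constructor
       · omega
       · intro hx
         omega)

/-- Inner triples of row 0. -/
def in0 (tl tr : Fin 3 → Fin 3 → ℕ) : ℕ :=
  (tl 1 0 + tl 1 1 + tl 1 2) + (tl 2 0 + tl 2 1 + tl 2 2) + (tr 0 0 + tr 0 1 + tr 0 2)

theorem Arr.in0_le6 {d tl tr : Fin 3 → Fin 3 → ℕ} (h : Arr d tl tr) {v c0 : Fin 3} (hv : v ≠ 0)
    (h1 : ∀ c, c ≠ c0 → tl v c = 0) (h2 : tr 0 c0 = 0) : in0 tl tr ≤ 6 := by
  have l10 := h.tl1 1 0
  have l11 := h.tl1 1 1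
  have l12 := h.tl1 1 2
  have l20 := h.tl1 2 0
  have l21 := h.tl1 2 1
  have l22 := h.tl1 2 2
  have r0 := h.tr1 0 0
  have r1 := h.tr1 0 1
  have r2 := h.tr1 0 2
  have q0 := h1 0
  have q1 := h1 1
  have q2 := h1 2
  unfold in0
  obtain rfl | rfl := fin3' v hv <;> obtain rfl | rfl | rfl := fin3 c0 <;>
    simp at q0 q1 q2 <;> omega

theorem Arr.in0_le4 {d tl tr : Fin 3 → Fin 3 → ℕ} (h : Arr d tl tr) {v c0 u c1 : Fin 3}
    (hv : v ≠ 0) (h1 : ∀ c, c ≠ c0 → tl v c = 0) (h2 : tr 0 c0 = 0)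
    (hu : u ≠ 0) (k1 : ∀ c, c ≠ c1 → tl u c = 0) (k2 : tr 0 c1 = 0)
    (hne : v ≠ u ∨ c0 ≠ c1) : in0 tl tr ≤ 4 := by
  have l10 := h.tl1 1 0
  have l11 := h.tl1 1 1
  have l12 := h.tl1 1 2
  have l20 := h.tl1 2 0
  have l21 := h.tl1 2 1
  have l22 := h.tl1 2 2
  have r0 := h.tr1 0 0
  have r1 := h.tr1 0 1
  have r2 := h.tr1 0 2
  have q0 := h1 0
  have q1 := h1 1
  have q2 := h1 2
  have p0 := k1 0
  have p1 := k1 1
  have p2 := k1 2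
  unfold in0
  obtain rfl | rfl := fin3' v hv <;> obtain rfl | rfl := fin3' u hu <;>
    obtain rfl | rfl | rfl := fin3 c0 <;> obtain rfl | rfl | rfl := fin3 c1 <;>
    simp at q0 q1 q2 p0 p1 p2 hne ⊢ <;> omega

theorem tot_eq (d tl tr : Fin 3 → Fin 3 → ℕ) : tot d tl tr =
    (d 0 0 + d 0 1 + d 0 2) + in0 tl tr + (tl 0 0 + tl 0 1 + tl 0 2) +
    ((d 1 0 + d 1 1 + d 1 2) + (d 2 0 + d 2 1 + d 2 2) + (tr 1 0 + tr 1 1 + tr 1 2) +
      (tr 2 0 + tr 2 1 + tr 2 2)) := by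
  unfold tot in0
  omega

/-- The rows part for a full cell in row `r`. -/
theorem ArrB.rows {d tl tr : Fin 3 → Fin 3 → ℕ} (h : ArrB d tl tr) {r j c0 : Fin 3}
    (hr : r ≠ 0) (hj : d r j = 4) (hjc : c0 ≠ j) (h0 : tr r c0 = 0) :
    ((d 1 0 + d 1 1 + d 1 2) + (d 2 0 + d 2 1 + d 2 2) + (tr 1 0 + tr 1 1 + tr 1 2) +
      (tr 2 0 + tr 2 1 + tr 2 2)) ≤ 14 ∧ (d r c0 ≤ 3 →
    ((d 1 0 + d 1 1 + d 1 2) + (d 2 0 + d 2 1 + d 2 2) + (tr 1 0 + tr 1 1 + tr 1 2) +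
      (tr 2 0 + tr 2 1 + tr 2 2)) ≤ 13) := by
  obtain rfl | rfl := fin3' r hr
  · have := rows_part (a := d 1) (b := d 2) (μ := tr 1) (ν := tr 2) (h.d4 1) (h.d4 2) (h.tr1 1)
      (h.tr1 2) h.T h.I1 h.I2 hj hjc h0
    exact this
  · have := rows_part (a := d 2) (b := d 1) (μ := tr 2) (ν := tr 1) (h.d4 2) (h.d4 1) (h.tr1 2)
      (h.tr1 1) (fun j k hjk => by have := h.T k j hjk.symm; omega) h.I2 h.I1 hj hjc h0
    constructor
    · omega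
    · intro h3
      have := this.2 h3
      omega

/-- A full cell in row `r ≠ 0` of type `(0, c0)`. -/
theorem ArrB.b1 {d tl tr : Fin 3 → Fin 3 → ℕ} (h : ArrB d tl tr) {r j c0 : Fin 3}
    (hr : r ≠ 0) (hj : d r j = 4) (hjc : c0 ≠ j) (h1 : ∀ c, c ≠ c0 → tl 0 c = 0)
    (h2 : ∀ a, a ≠ 0 → tr a c0 = 0) : tot d tl tr ≤ 33 := by
  have e1 := (h.rows hr hj hjc (h2 r hr)).1
  have e2 := h.toArr.row0
  have q0 := h1 0
  have q1 := h1 1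
  have q2 := h1 2
  have l0 := h.tl1 0 0
  have l1 := h.tl1 0 1
  have l2 := h.tl1 0 2
  have e3 : tl 0 0 + tl 0 1 + tl 0 2 ≤ 1 := by
    obtain rfl | rfl | rfl := fin3 c0 <;> simp at q0 q1 q2 <;> omega
  rw [tot_eq]
  unfold in0
  omega

/-- A full cell in row `r ≠ 0` of type `(r', c0)`, no full cell outside row 0 having type
`(0, ·)`. -/
theorem ArrB.b2 {d tl tr : Fin 3 → Fin 3 → ℕ} (h : ArrB d tl tr) {r r' j c0 : Fin 3}
    (hr : r ≠ 0) (hr' : r' ≠ 0) (hrr : r ≠ r') (hj : d r j = 4) (hjc : c0 ≠ j)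
    (h1 : ∀ c, c ≠ c0 → tl r' c = 0) (h2 : ∀ a, a ≠ r' → tr a c0 = 0)
    (hno : ∀ r j, r ≠ 0 → d r j = 4 → ∃ v v' : Fin 3, v ≠ 0 ∧ v ≠ r ∧ v' ≠ j ∧
      (∀ c, c ≠ v' → tl v c = 0) ∧ (∀ a, a ≠ v → tr a v' = 0)) : tot d tl tr ≤ 33 := by
  obtain ⟨e1, e1'⟩ := h.rows hr hj hjc (h2 r hrr)
  have l0 := h.tl1 0 0
  have l1 := h.tl1 0 1
  have l2 := h.tl1 0 2
  have d00 := h.d4 0 0
  have d01 := h.d4 0 1
  have d02 := h.d4 0 2
  have i6 := h.toArr.in0_le6 hr' h1 (h2 0 hr'.symm)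
  rw [tot_eq]
  by_cases h3 : d 0 c0 = 4
  · obtain ⟨v, v', hv, hv', k1, k2⟩ := h.full 0 c0 h3
    have := h.toArr.in0_le4 hr' h1 (h2 0 hr'.symm) hv k1 (k2 0 hv.symm) (Or.inr hv'.symm)
    omega
  · have hR : d 0 0 + d 0 1 + d 0 2 ≤ 11 := by
      obtain rfl | rfl | rfl := fin3 c0 <;> omega
    by_cases h4 : d r c0 = 4
    · obtain ⟨v, v', hv, hvr, hv', k1, k2⟩ := hno r c0 hr h4
      have := h.toArr.in0_le4 hr' h1 (h2 0 hr'.symm) hv k1 (k2 0 hv.symm) (Or.inr hv'.symm)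
      omega
    · have h5 := h.d4 r c0
      have := e1' (by omega)
      omega

theorem ArrB.le {d tl tr : Fin 3 → Fin 3 → ℕ} (h : ArrB d tl tr) : tot d tl tr ≤ 33 := by
  by_cases hn : ∀ r, r ≠ 0 → ∀ j, d r j ≠ 4
  · exact h.b3 hn
  push Not at hn
  obtain ⟨r, hr, j, hj⟩ := hn
  by_cases h0 : ∃ r j c0 : Fin 3, r ≠ 0 ∧ d r j = 4 ∧ c0 ≠ j ∧ (∀ c, c ≠ c0 → tl 0 c = 0) ∧
      (∀ a, a ≠ 0 → tr a c0 = 0)
  · obtain ⟨r, j, c0, hr, hj, hc, k1, k2⟩ := h0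
    exact h.b1 hr hj hc k1 k2
  push Not at h0
  have hno : ∀ r j, r ≠ 0 → d r j = 4 → ∃ v v' : Fin 3, v ≠ 0 ∧ v ≠ r ∧ v' ≠ j ∧
      (∀ c, c ≠ v' → tl v c = 0) ∧ (∀ a, a ≠ v → tr a v' = 0) := by
    intro r j hr hj
    obtain ⟨v, v', hv, hv', k1, k2⟩ := h.full r j hj
    refine ⟨v, v', ?_, hv, hv', k1, k2⟩
    rintro rfl
    obtain ⟨a, ha, ha'⟩ := h0 r j v' hr hj hv' k1
    exact ha' (k2 a ha)
  obtain ⟨v, v', hv0, hvr, hv', k1, k2⟩ := hno r j hr hj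
  exact h.b2 hr hv0 hvr.symm hj hv' k1 k2 hno

/-- Case A: no graph cover of size two. -/
theorem Arr.caseA {d tl tr : Fin 3 → Fin 3 → ℕ} (h : Arr d tl tr) (h0 : ∀ j, d 0 j ≤ 3)
    (hl : ∀ c, tl 0 c = 0) {c1 c2 : Fin 3} (hc : c1 ≠ c2)
    (h1 : tr 1 c1 = 0) (h2 : tr 1 c2 = 0) (h3 : tr 2 c1 = 0) (h4 : tr 2 c2 = 0)
    (T : ∀ j k, j ≠ k → d 1 j = 0 ∨ d 2 k = 0 ∨ (d 1 j = 1 ∧ d 2 k = 1)) :
    tot d tl tr ≤ 32 ∧ ((∀ r, r ≠ 0 → ∀ j, d r j ≠ 4) → tot d tl tr ≤ 29) := by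
  have a0 := h0 0
  have a1 := h0 1
  have a2 := h0 2
  have b0 := hl 0
  have b1 := hl 1
  have b2 := hl 2
  have l10 := h.tl1 1 0
  have l11 := h.tl1 1 1
  have l12 := h.tl1 1 2
  have l20 := h.tl1 2 0
  have l21 := h.tl1 2 1
  have l22 := h.tl1 2 2
  have r00 := h.tr1 0 0
  have r01 := h.tr1 0 1
  have r02 := h.tr1 0 2
  have r10 := h.tr1 1 0
  have r11 := h.tr1 1 1
  have r12 := h.tr1 1 2
  have r20 := h.tr1 2 0
  have r21 := h.tr1 2 1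
  have r22 := h.tr1 2 2
  have d10 := h.d4 1 0
  have d11 := h.d4 1 1
  have d12 := h.d4 1 2
  have d20 := h.d4 2 0
  have d21 := h.d4 2 1
  have d22 := h.d4 2 2
  have t01 := T 0 1 (by decide)
  have t12 := T 1 2 (by decide)
  have t20 := T 2 0 (by decide)
  have hin : tr 1 0 + tr 1 1 + tr 1 2 + (tr 2 0 + tr 2 1 + tr 2 2) ≤ 2 := by
    obtain rfl | rfl | rfl := fin3 c1 <;> obtain rfl | rfl | rfl := fin3 c2 <;>
      first | exact absurd rfl hc | omega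
  have s1 : d 1 0 + d 2 1 ≤ 4 := by omega
  have s2 : d 1 1 + d 2 2 ≤ 4 := by omega
  have s3 : d 1 2 + d 2 0 ≤ 4 := by omega
  unfold tot
  refine ⟨by omega, fun hn => ?_⟩
  have n10 := hn 1 (by decide) 0
  have n11 := hn 1 (by decide) 1
  have n12 := hn 1 (by decide) 2
  have n20 := hn 2 (by decide) 0
  have n21 := hn 2 (by decide) 1
  have n22 := hn 2 (by decide) 2
  have s1 : d 1 0 + d 2 1 ≤ 3 := by omega
  have s2 : d 1 1 + d 2 2 ≤ 3 := by omega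
  have s3 : d 1 2 + d 2 0 ≤ 3 := by omega
  omega

/-- Case C: the six missing inner triples. -/
theorem Arr.caseC {d tl tr : Fin 3 → Fin 3 → ℕ} (h : Arr d tl tr) {a b b' m : Fin 3}
    (hab : a ≠ b) (hab' : a ≠ b') (hbb : b ≠ b') (hm : m ≠ 0)
    (l1 : tl 0 b = 0) (l2 : tl 0 b' = 0) (r1 : tr 0 a = 0) (r2 : tr 1 a = 0) (r3 : tr 2 a = 0)
    (r4 : tr m b = 0)
    (hp : ∀ k : Fin 3, (d 0 (0 + k) + d 1 (1 + k) + d 2 (2 + k)) ≤ 8 ∧
      (d 0 (0 + k) + d 1 (1 + k) + d 2 (2 + k)) ≤ 6 + ((if d 0 (0 + k) = 4 then 1 else 0) +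
        (if d 1 (1 + k) = 4 then 1 else 0) + (if d 2 (2 + k) = 4 then 1 else 0))) :
    ((∀ i j i' j', d i j = 4 → d i' j' = 4 → i = i' ∨ j = j') → tot d tl tr ≤ 33) ∧
    ((∃ v c0, v ≠ 0 ∧ (∀ c, c ≠ c0 → tl v c = 0)) → tot d tl tr ≤ 34) := by
  have l00 := h.tl1 0 0
  have l01 := h.tl1 0 1
  have l02 := h.tl1 0 2
  have l10 := h.tl1 1 0
  have l11 := h.tl1 1 1
  have l12 := h.tl1 1 2
  have l20 := h.tl1 2 0
  have l21 := h.tl1 2 1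
  have l22 := h.tl1 2 2
  have r00 := h.tr1 0 0
  have r01 := h.tr1 0 1
  have r02 := h.tr1 0 2
  have r10 := h.tr1 1 0
  have r11 := h.tr1 1 1
  have r12 := h.tr1 1 2
  have r20 := h.tr1 2 0
  have r21 := h.tr1 2 1
  have r22 := h.tr1 2 2
  have p0 := hp 0
  have p1 := hp 1
  have p2 := hp 2
  have e1 : (0 : Fin 3) + 0 = 0 := rfl
  have e2 : (1 : Fin 3) + 0 = 1 := rfl
  have e3 : (2 : Fin 3) + 0 = 2 := rfl
  have e4 : (0 : Fin 3) + 1 = 1 := rfl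
  have e5 : (1 : Fin 3) + 1 = 2 := rfl
  have e6 : (2 : Fin 3) + 1 = 0 := rfl
  have e7 : (0 : Fin 3) + 2 = 2 := rfl
  have e8 : (1 : Fin 3) + 2 = 0 := rfl
  have e9 : (2 : Fin 3) + 2 = 1 := rfl
  rw [e1, e2, e3] at p0
  rw [e4, e5, e6] at p1
  rw [e7, e8, e9] at p2
  have hL : tl 0 0 + tl 0 1 + tl 0 2 ≤ 1 := by
    obtain rfl | rfl | rfl := fin3 b <;> obtain rfl | rfl | rfl := fin3 b' <;>
      first | exact absurd rfl hbb | omega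
  have hR : (tr 0 0 + tr 0 1 + tr 0 2) + (tr 1 0 + tr 1 1 + tr 1 2) + (tr 2 0 + tr 2 1 + tr 2 2)
      ≤ 5 := by
    obtain rfl | rfl | rfl := fin3 a <;> obtain rfl | rfl | rfl := fin3 b <;>
      obtain rfl | rfl := fin3' m hm <;>
      first | exact absurd rfl hab | omega
  unfold tot
  constructor
  · intro hf
    have q : ∀ i j i' j', i ≠ i' → j ≠ j' → ¬ (d i j = 4 ∧ d i' j' = 4) := by
      intro i j i' j' h1 h2 h3
      rcases hf i j i' j' h3.1 h3.2 with h4 | h4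
      · exact h1 h4
      · exact h2 h4
    have s0 : d 0 0 + d 1 1 + d 2 2 ≤ 7 := by
      have x1 := q 0 0 1 1 (by decide) (by decide)
      have x2 := q 0 0 2 2 (by decide) (by decide)
      have x3 := q 1 1 2 2 (by decide) (by decide)
      split_ifs at p0 <;> omega
    have s1 : d 0 1 + d 1 2 + d 2 0 ≤ 7 := by
      have x1 := q 0 1 1 2 (by decide) (by decide)
      have x2 := q 0 1 2 0 (by decide) (by decide)
      have x3 := q 1 2 2 0 (by decide) (by decide)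
      split_ifs at p1 <;> omega
    have s2 : d 0 2 + d 1 0 + d 2 1 ≤ 7 := by
      have x1 := q 0 2 1 0 (by decide) (by decide)
      have x2 := q 0 2 2 1 (by decide) (by decide)
      have x3 := q 1 0 2 1 (by decide) (by decide)
      split_ifs at p2 <;> omega
    omega
  · rintro ⟨v, c0, hv, hc⟩
    have q0 := hc 0
    have q1 := hc 1
    have q2 := hc 2
    have hV : (tl 1 0 + tl 1 1 + tl 1 2) + (tl 2 0 + tl 2 1 + tl 2 2) ≤ 4 := by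
      obtain rfl | rfl := fin3' v hv <;> obtain rfl | rfl | rfl := fin3 c0 <;>
        simp at q0 q1 q2 <;> omega
    have u0 := p0.1
    have u1 := p1.1
    have u2 := p2.1
    omega

end B46

end Res12
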