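import Mathlib
import Pool.Agent.Helper12.Res.Defs

/-!
Project RES (MP_d365ae_co), part (b') of helper10: in a 2-resilient 3-graph `H` with matching
number two and a matching `{e, f}` at most 36 edges meet both `e` and `f`.
-/

namespace Res12

open Finset

set_option linter.unusedSectionVars false

variable {V : Type} [Fintype V] [DecidableEq V]

namespace B36

/-- Three sets of size at most four without a system of distinct representatives. -/
theorem no_sdr (t : Fin 3 → Finset V) (h4 : ∀ i, (t i).card ≤ 4)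
    (h : ¬ ∃ w : Fin 3 → V, Function.Injective w ∧ ∀ i, w i ∈ t i) :
    (∑ i, (t i).card) ≤ 8 ∧
      (∑ i, (t i).card) ≤ 6 + ∑ i, (if (t i).card = 4 then 1 else 0) := by
  rw [← Finset.all_card_le_biUnion_card_iff_exists_injective] at h
  push Not at h
  obtain ⟨s, hs⟩ := h
  have h1 : ∀ i ∈ s, (t i).card + 1 ≤ s.card := fun i hi => by
    have h5 : t i ⊆ s.biUnion t := subset_biUnion_of_mem t hi
    have h6 := card_le_card h5
    omega
  have hc : s.card = (if (0 : Fin 3) ∈ s then 1 else 0) + (if (1 : Fin 3) ∈ s then 1 else 0) +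
      (if (2 : Fin 3) ∈ s then 1 else 0) := by
    have h7 : s.card = ∑ i : Fin 3, (if i ∈ s then 1 else 0) := by
      rw [Finset.sum_ite_mem, univ_inter, card_eq_sum_ones]
    rw [h7, Fin.sum_univ_three]
  rw [Fin.sum_univ_three, Fin.sum_univ_three]
  have a0 := h4 0
  have a1 := h4 1
  have a2 := h4 2
  have b0 := h1 0
  have b1 := h1 1
  have b2 := h1 2
  by_cases c0 : (0 : Fin 3) ∈ s <;> by_cases c1 : (1 : Fin 3) ∈ s <;>
    by_cases c2 : (2 : Fin 3) ∈ s <;> simp only [c0, c1, c2, if_true, if_false] at hc <;>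
    simp only [c0, c1, c2, forall_const, false_imp_iff] at b0 b1 b2 <;>
    split_ifs <;> omega

/-- The third member of a matching: three pairwise disjoint edges are impossible. -/
theorem no_three {H : Finset (Finset V)} (h : Hyp H 2) {g1 g2 g3 : Finset V} (h1 : g1 ∈ H)
    (h2 : g2 ∈ H) (h3 : g3 ∈ H) (d12 : Disjoint g1 g2) (d13 : Disjoint g1 g3)
    (d23 : Disjoint g2 g3) : False := by
  have ne : ∀ g ∈ H, ∀ g' ∈ H, Disjoint g g' → g ≠ g' := by
    rintro g hg g' hg' hd rfl
    rw [disjoint_self_iff_empty] at hd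
    have := h.three g hg
    rw [hd] at this
    simp at this
  have hle := h.le {g1, g2, g3} (by
    intro g hg
    simp only [mem_insert, mem_singleton] at hg
    rcases hg with rfl | rfl | rfl <;> assumption) (by
    intro a ha b hb hab
    simp only [mem_insert, mem_singleton] at ha hb
    rcases ha with rfl | rfl | rfl <;> rcases hb with rfl | rfl | rfl <;>
      first | exact absurd rfl hab | assumption | exact Disjoint.symm (by assumption))
  have hc : ({g1, g2, g3} : Finset (Finset V)).card = 3 := by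
    rw [Finset.card_eq_three]
    exact ⟨g1, g2, g3, ne _ h1 _ h2 d12, ne _ h1 _ h3 d13, ne _ h2 _ h3 d23, rfl⟩
  omega

/-- The cell lemma: for `a ∈ e`, `b ∈ f` the outer codegree is at most four, and if it is four
there are `v ∈ e`, `v' ∈ f` such that no edge lies in `(e - v) ∪ (f - v')`. -/
theorem cell {H : Finset (Finset V)} (h : Hyp H 2) {e f : Finset V} (he : e ∈ H) (hf : f ∈ H)
    (hd : Disjoint e f) (a b : V) :
    (N H a b \ (e ∪ f)).card ≤ 4 ∧ ((N H a b \ (e ∪ f)).card = 4 →
      ∃ v ∈ e, ∃ v' ∈ f, v ≠ a ∧ v ≠ b ∧ v' ≠ a ∧ v' ≠ b ∧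
        ∀ t ∈ H, ¬ t ⊆ (e.erase v) ∪ (f.erase v')) := by
  classical
  obtain ⟨Q, hQ, hmQ, hcQ, hav⟩ := h.avoid a b
  obtain ⟨g1, g2, hne, rfl⟩ := Finset.card_eq_two.1 hcQ
  have hg1 : g1 ∈ H := hQ (by simp)
  have hg2 : g2 ∈ H := hQ (by simp)
  have hdg : Disjoint g1 g2 := hmQ g1 (by simp) g2 (by simp) hne
  have hav1 := hav g1 (by simp)
  have hav2 := hav g2 (by simp)
  have hsub : N H a b ⊆ g1 ∪ g2 := by
    have := h.N_subset hQ hmQ hcQ hav
    simpa [VS] using this
  have meet : ∀ g ∈ H, (g ∩ (e ∪ f)).Nonempty := by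
    intro g hg
    rw [Finset.nonempty_iff_ne_empty]
    intro h0
    rw [← Finset.disjoint_iff_inter_eq_empty, disjoint_union_right] at h0
    exact no_three h he hf hg hd h0.1.symm h0.2.symm
  have hc : ∀ g ∈ H, (g \ (e ∪ f)).card + (g ∩ (e ∪ f)).card = 3 := by
    intro g hg
    rw [Finset.card_sdiff_add_card_inter, h.three g hg]
  have hle : (N H a b \ (e ∪ f)).card ≤ (g1 \ (e ∪ f)).card + (g2 \ (e ∪ f)).card := by
    refine (card_le_card ?_).trans (card_union_le _ _)
    rw [← union_sdiff_distrib]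
    exact sdiff_subset_sdiff hsub (Subset.refl _)
  have c1 := hc g1 hg1
  have c2 := hc g2 hg2
  have m1 := Finset.card_pos.2 (meet g1 hg1)
  have m2 := Finset.card_pos.2 (meet g2 hg2)
  refine ⟨by omega, fun h4 => ?_⟩
  have e1 : (g1 ∩ (e ∪ f)).card = 1 := by omega
  have e2 : (g2 ∩ (e ∪ f)).card = 1 := by omega
  obtain ⟨v1, hv1⟩ := Finset.card_eq_one.1 e1
  obtain ⟨v2, hv2⟩ := Finset.card_eq_one.1 e2
  have k1 : ∀ u ∈ g1, u ∈ e ∪ f → u = v1 := fun u hu hu' => by
    have : u ∈ g1 ∩ (e ∪ f) := mem_inter.2 ⟨hu, hu'⟩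
    rw [hv1] at this
    exact mem_singleton.1 this
  have k2 : ∀ u ∈ g2, u ∈ e ∪ f → u = v2 := fun u hu hu' => by
    have : u ∈ g2 ∩ (e ∪ f) := mem_inter.2 ⟨hu, hu'⟩
    rw [hv2] at this
    exact mem_singleton.1 this
  have p1 : v1 ∈ g1 ∩ (e ∪ f) := by rw [hv1]; simp
  have p2 : v2 ∈ g2 ∩ (e ∪ f) := by rw [hv2]; simp
  rw [mem_inter, mem_union] at p1 p2
  have key : ∀ (ga gb : Finset V) (va vb : V), ga ∈ H → gb ∈ H → Disjoint ga gb →
      (∀ u ∈ ga, u ∈ e ∪ f → u = va) → (∀ u ∈ gb, u ∈ e ∪ f → u = vb) →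
      ∀ t ∈ H, ¬ t ⊆ (e.erase va) ∪ (f.erase vb) ∨ va ∉ e ∨ vb ∉ f := by
    intro ga gb va vb ha hb hab ka kb t ht
    by_contra hcon
    push Not at hcon
    obtain ⟨hts, hva, hvb⟩ := hcon
    have hvaf : va ∉ f := fun h0 => Finset.disjoint_left.1 hd hva h0
    have hvbe : vb ∉ e := fun h0 => Finset.disjoint_left.1 hd h0 hvb
    refine no_three h ha hb ht hab ?_ ?_
    · rw [Finset.disjoint_left]
      intro u hu hut
      have h7 := hts hut
      rw [mem_union, mem_erase, mem_erase] at h7
      have h8 : u = va := ka u hu (by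
        rw [mem_union]
        tauto)
      rcases h7 with h7 | h7
      · exact h7.1 h8
      · exact hvaf (h8 ▸ h7.2)
    · rw [Finset.disjoint_left]
      intro u hu hut
      have h7 := hts hut
      rw [mem_union, mem_erase, mem_erase] at h7
      have h8 : u = vb := kb u hu (by
        rw [mem_union]
        tauto)
      rcases h7 with h7 | h7
      · exact hvbe (h8 ▸ h7.2)
      · exact h7.1 h8
  have nbe : ∀ (x : Finset V), x ∈ H → (∀ u ∈ x, u ∈ e ∪ f) → (v1 ∉ x) → (v2 ∉ x) → False := by
    intro x hx hxs n1 n2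
    refine no_three h hg1 hg2 hx hdg ?_ ?_
    · rw [Finset.disjoint_left]
      intro u hu hux
      exact n1 (k1 u hu (hxs u hux) ▸ hux)
    · rw [Finset.disjoint_left]
      intro u hu hux
      exact n2 (k2 u hu (hxs u hux) ▸ hux)
  rcases p1 with ⟨q1, r1 | r1⟩ <;> rcases p2 with ⟨q2, r2 | r2⟩
  · exact absurd (nbe f hf (fun u hu => mem_union_right _ hu)
      (fun h0 => Finset.disjoint_left.1 hd r1 h0) (fun h0 => Finset.disjoint_left.1 hd r2 h0)) id
  · refine ⟨v1, r1, v2, r2, ?_, ?_, ?_, ?_, ?_⟩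
    · rintro rfl; exact hav1.1 q1
    · rintro rfl; exact hav1.2 q1
    · rintro rfl; exact hav2.1 q2
    · rintro rfl; exact hav2.2 q2
    · intro t ht
      rcases key g1 g2 v1 v2 hg1 hg2 hdg k1 k2 t ht with h0 | h0 | h0
      · exact h0
      · exact absurd r1 h0
      · exact absurd r2 h0
  · refine ⟨v2, r2, v1, r1, ?_, ?_, ?_, ?_, ?_⟩
    · rintro rfl; exact hav2.1 q2
    · rintro rfl; exact hav2.2 q2
    · rintro rfl; exact hav1.1 q1
    · rintro rfl; exact hav1.2 q1
    · intro t ht
      rcases key g2 g1 v2 v1 hg2 hg1 hdg.symm k2 k1 t ht with h0 | h0 | h0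
      · exact h0
      · exact absurd r2 h0
      · exact absurd r1 h0
  · exact absurd (nbe e he (fun u hu => mem_union_left _ hu)
      (fun h0 => Finset.disjoint_left.1 hd h0 r1) (fun h0 => Finset.disjoint_left.1 hd h0 r2)) id

theorem two_types : ∀ v v' u u' : Fin 3, (v ≠ u ∨ v' ≠ u') →
    7 ≤ ((univ : Finset (Fin 3 × Fin 3)).filter
        (fun q => (q.1 = v ∧ q.2 ≠ v') ∨ (q.1 = u ∧ q.2 ≠ u'))).card +
      ((univ : Finset (Fin 3 × Fin 3)).filter
        (fun q => (q.2 = v' ∧ q.1 ≠ v) ∨ (q.2 = u' ∧ q.1 ≠ u))).card := by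
  decide

theorem one_type : ∀ v v' : Fin 3,
    4 ≤ ((univ : Finset (Fin 3 × Fin 3)).filter (fun q => (q.1 = v ∧ q.2 ≠ v'))).card +
      ((univ : Finset (Fin 3 × Fin 3)).filter (fun q => (q.2 = v' ∧ q.1 ≠ v))).card := by
  decide

theorem avoid_type : ∀ v v' : Fin 3,
    ((univ : Finset (Fin 3 × Fin 3)).filter (fun q => v ≠ q.1 ∧ v' ≠ q.2)).card ≤ 4 := by
  decide

theorem exists_fin {e : Finset V} (h : e.card = 3) :
    ∃ x : Fin 3 → V, Function.Injective x ∧ e = univ.image x := by
  obtain ⟨a, b, c, hab, hac, hbc, rfl⟩ := Finset.card_eq_three.1 h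
  refine ⟨![a, b, c], ?_, ?_⟩
  · intro i j hij
    fin_cases i <;> fin_cases j <;> simp_all
  · ext v
    simp only [mem_insert, mem_singleton, mem_image, mem_univ, true_and]
    constructor
    · rintro (rfl | rfl | rfl)
      · exact ⟨0, rfl⟩
      · exact ⟨1, rfl⟩
      · exact ⟨2, rfl⟩
    · rintro ⟨i, rfl⟩
      fin_cases i <;> simp

theorem third : ∀ i k : Fin 3, i ≠ k → ∃ v : Fin 3, ∀ m, (m ≠ v ↔ m = i ∨ m = k) := by
  decide

/-- The inner triple with two vertices in `e`. -/
def TL (x y : Fin 3 → V) (q : Fin 3 × Fin 3) : Finset V :=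
  insert (y q.2) ((univ.image x).erase (x q.1))

/-- The inner triple with two vertices in `f`. -/
def TR (x y : Fin 3 → V) (q : Fin 3 × Fin 3) : Finset V :=
  insert (x q.1) ((univ.image y).erase (y q.2))

theorem count {H : Finset (Finset V)} (h3 : ∀ g ∈ H, g.card = 3) {x y : Fin 3 → V}
    (hx : Function.Injective x) (hy : Function.Injective y) (hd : ∀ i j, x i ≠ y j) :
    (H.filter (fun g => ¬ Disjoint g (univ.image x) ∧ ¬ Disjoint g (univ.image y))).card +
      ((univ.filter (fun q => TL x y q ∉ H)).card +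
        (univ.filter (fun q => TR x y q ∉ H)).card) ≤
      18 + ∑ q : Fin 3 × Fin 3,
        (N H (x q.1) (y q.2) \ (univ.image x ∪ univ.image y)).card := by
  classical
  have n1 := Finset.card_filter_add_card_filter_not (s := (univ : Finset (Fin 3 × Fin 3)))
    (fun q => TL x y q ∈ H)
  have n2 := Finset.card_filter_add_card_filter_not (s := (univ : Finset (Fin 3 × Fin 3)))
    (fun q => TR x y q ∈ H)
  have n3 : (univ : Finset (Fin 3 × Fin 3)).card = 9 := by decide
  have hsub : H.filter (fun g => ¬ Disjoint g (univ.image x) ∧ ¬ Disjoint g (univ.image y)) ⊆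
      ((univ.filter (fun q => TL x y q ∈ H)).image (TL x y) ∪
        (univ.filter (fun q => TR x y q ∈ H)).image (TR x y)) ∪
      univ.biUnion (fun q : Fin 3 × Fin 3 =>
        (N H (x q.1) (y q.2) \ (univ.image x ∪ univ.image y)).image
          (fun w => ({x q.1, y q.2, w} : Finset V))) := by
    intro g hg
    rw [mem_filter] at hg
    obtain ⟨hgH, h1, h2⟩ := hg
    rw [Finset.not_disjoint_iff] at h1 h2
    obtain ⟨u, hu, hu'⟩ := h1
    obtain ⟨v, hv, hv'⟩ := h2
    rw [mem_image] at hu' hv'
    obtain ⟨i, -, rfl⟩ := hu'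
    obtain ⟨j, -, rfl⟩ := hv'
    have hpair : ({x i, y j} : Finset V) ⊆ g := by
      intro z hz
      rw [mem_insert, mem_singleton] at hz
      rcases hz with rfl | rfl <;> assumption
    have hcard : (g \ {x i, y j}).card = 1 := by
      rw [card_sdiff_of_subset hpair, h3 g hgH, Finset.card_pair (hd i j)]
    obtain ⟨w, hw⟩ := Finset.card_eq_one.1 hcard
    have hwg : w ∈ g \ {x i, y j} := by rw [hw]; simp
    rw [mem_sdiff, mem_insert, mem_singleton, not_or] at hwg
    have hg : g = {x i, y j, w} := by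
      ext z
      constructor
      · intro hz
        by_cases hz' : z ∈ ({x i, y j} : Finset V)
        · rw [mem_insert, mem_singleton] at hz'
          rcases hz' with rfl | rfl <;> simp
        · have : z ∈ g \ {x i, y j} := mem_sdiff.2 ⟨hz, hz'⟩
          rw [hw, mem_singleton] at this
          rw [this]
          simp
      · intro hz
        simp only [mem_insert, mem_singleton] at hz
        rcases hz with rfl | rfl | rfl
        · exact hu
        · exact hv
        · exact hwg.1
    rw [mem_union, mem_union]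
    by_cases we : w ∈ univ.image x
    · left; left
      rw [mem_image] at we
      obtain ⟨k, -, rfl⟩ := we
      obtain ⟨v, hv⟩ := third i k (fun h0 => hwg.2.1 (by rw [h0]))
      have hgT : TL x y (v, j) = g := by
        rw [hg]
        ext z
        simp only [TL, mem_insert, mem_erase, mem_image, mem_univ, true_and, mem_singleton]
        constructor
        · rintro (rfl | ⟨hz, m, rfl⟩)
          · simp
          · have := (hv m).1 (fun h0 => hz (by rw [h0]))
            rcases this with rfl | rfl <;> simp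
        · rintro (rfl | rfl | rfl)
          · right
            exact ⟨fun h0 => (hv i).2 (Or.inl rfl) (hx h0), i, rfl⟩
          · left; rfl
          · right
            exact ⟨fun h0 => (hv k).2 (Or.inr rfl) (hx h0), k, rfl⟩
      rw [mem_image]
      exact ⟨(v, j), mem_filter.2 ⟨mem_univ _, by rw [hgT]; exact hgH⟩, hgT⟩
    · by_cases wf : w ∈ univ.image y
      · left; right
        rw [mem_image] at wf
        obtain ⟨k, -, rfl⟩ := wf
        obtain ⟨v, hv⟩ := third j k (fun h0 => hwg.2.2 (by rw [h0]))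
        have hgT : TR x y (i, v) = g := by
          rw [hg]
          ext z
          simp only [TR, mem_insert, mem_erase, mem_image, mem_univ, true_and, mem_singleton]
          constructor
          · rintro (rfl | ⟨hz, m, rfl⟩)
            · simp
            · have := (hv m).1 (fun h0 => hz (by rw [h0]))
              rcases this with rfl | rfl <;> simp
          · rintro (rfl | rfl | rfl)
            · left; rfl
            · right
              exact ⟨fun h0 => (hv j).2 (Or.inl rfl) (hy h0), j, rfl⟩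
            · right
              exact ⟨fun h0 => (hv k).2 (Or.inr rfl) (hy h0), k, rfl⟩
        rw [mem_image]
        exact ⟨(i, v), mem_filter.2 ⟨mem_univ _, by rw [hgT]; exact hgH⟩, hgT⟩
      · right
        rw [mem_biUnion]
        refine ⟨(i, j), mem_univ _, ?_⟩
        rw [mem_image]
        refine ⟨w, ?_, hg.symm⟩
        rw [mem_sdiff, mem_N, mem_union, not_or]
        exact ⟨by rw [← hg]; exact hgH, we, wf⟩
  have hle := card_le_card hsub
  have l1 := card_union_le ((univ.filter (fun q => TL x y q ∈ H)).image (TL x y) ∪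
        (univ.filter (fun q => TR x y q ∈ H)).image (TR x y))
      (univ.biUnion (fun q : Fin 3 × Fin 3 =>
        (N H (x q.1) (y q.2) \ (univ.image x ∪ univ.image y)).image
          (fun w => ({x q.1, y q.2, w} : Finset V))))
  have l2 := card_union_le ((univ.filter (fun q => TL x y q ∈ H)).image (TL x y))
    ((univ.filter (fun q => TR x y q ∈ H)).image (TR x y))
  have l3 : (univ.biUnion (fun q : Fin 3 × Fin 3 =>
        (N H (x q.1) (y q.2) \ (univ.image x ∪ univ.image y)).image
          (fun w => ({x q.1, y q.2, w} : Finset V)))).card ≤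
      ∑ q : Fin 3 × Fin 3, (N H (x q.1) (y q.2) \ (univ.image x ∪ univ.image y)).card :=
    card_biUnion_le.trans (Finset.sum_le_sum fun q _ => card_image_le)
  have l4 : ((univ.filter (fun q => TL x y q ∈ H)).image (TL x y)).card ≤
    (univ.filter (fun q => TL x y q ∈ H)).card := card_image_le
  have l5 : ((univ.filter (fun q => TR x y q ∈ H)).image (TR x y)).card ≤
    (univ.filter (fun q => TR x y q ∈ H)).card := card_image_le
  omega

end B36

open B36 in
/-- In a 2-resilient 3-graph with matching number two and a matching `{e, f}`, at most `36` edges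
meet both `e` and `f`. -/
theorem b36r {H : Finset (Finset V)} (h : Hyp H 2) {e f : Finset V} (he : e ∈ H) (hf : f ∈ H)
    (hd : Disjoint e f) :
    (H.filter (fun g => ¬ Disjoint g e ∧ ¬ Disjoint g f)).card ≤ 36 := by
  classical
  obtain ⟨x, hx, rfl⟩ := exists_fin (h.three e he)
  obtain ⟨y, hy, rfl⟩ := exists_fin (h.three f hf)
  have hxy : ∀ i j, x i ≠ y j := fun i j h0 => Finset.disjoint_left.1 hd
    (mem_image_of_mem x (mem_univ i)) (h0 ▸ mem_image_of_mem y (mem_univ j))
  have hcount := count h.three hx hy hxy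
  set D : Fin 3 × Fin 3 → ℕ :=
    fun q => (N H (x q.1) (y q.2) \ (univ.image x ∪ univ.image y)).card with hD
  have hD4 : ∀ q, D q ≤ 4 := fun q => (cell h he hf hd _ _).1
  have htype : ∀ q, D q = 4 → ∃ a a' : Fin 3, a ≠ q.1 ∧ a' ≠ q.2 ∧
      (∀ c, c ≠ a' → TL x y (a, c) ∉ H) ∧ (∀ c, c ≠ a → TR x y (c, a') ∉ H) := by
    intro q hq
    obtain ⟨v, hv, v', hv', n1, -, -, n4, hm⟩ := (cell h he hf hd _ _).2 hq
    rw [mem_image] at hv hv'
    obtain ⟨a, -, rfl⟩ := hv
    obtain ⟨a', -, rfl⟩ := hv'
    refine ⟨a, a', fun h0 => n1 (by rw [h0]), fun h0 => n4 (by rw [h0]), ?_, ?_⟩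
    · intro c hc hH
      refine hm _ hH ?_
      intro z hz
      rw [TL, mem_insert] at hz
      rw [mem_union]
      rcases hz with rfl | hz
      · right
        exact mem_erase.2 ⟨fun h0 => hc (hy h0), mem_image_of_mem y (mem_univ _)⟩
      · left; exact hz
    · intro c hc hH
      refine hm _ hH ?_
      intro z hz
      rw [TR, mem_insert] at hz
      rw [mem_union]
      rcases hz with rfl | hz
      · left
        exact mem_erase.2 ⟨fun h0 => hc (hx h0), mem_image_of_mem x (mem_univ _)⟩
      · right; exact hz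
  have hperm : ∀ k : Fin 3, (∑ i, D (i, i + k)) ≤ 8 ∧
      (∑ i, D (i, i + k)) ≤ 6 + ∑ i, (if D (i, i + k) = 4 then 1 else 0) := by
    intro k
    refine no_sdr (fun i => N H (x i) (y (i + k)) \ (univ.image x ∪ univ.image y))
      (fun i => hD4 (i, i + k)) ?_
    rintro ⟨w, hw, hwm⟩
    have hE : ∀ i, ({x i, y (i + k), w i} : Finset V) ∈ H := fun i => by
      have := hwm i
      rw [mem_sdiff, mem_N] at this
      exact this.1
    have hwx : ∀ i j, w i ≠ x j := fun i j h0 => by
      have := hwm i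
      rw [mem_sdiff, mem_union, not_or] at this
      exact this.2.1 (h0 ▸ mem_image_of_mem x (mem_univ _))
    have hwy : ∀ i j, w i ≠ y j := fun i j h0 => by
      have := hwm i
      rw [mem_sdiff, mem_union, not_or] at this
      exact this.2.2 (h0 ▸ mem_image_of_mem y (mem_univ _))
    have hdis : ∀ i j : Fin 3, i ≠ j →
        Disjoint ({x i, y (i + k), w i} : Finset V) {x j, y (j + k), w j} := by
      intro i j hij
      rw [Finset.disjoint_left]
      intro z hz hz'
      simp only [mem_insert, mem_singleton] at hz hz'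
      rcases hz with rfl | rfl | rfl <;> rcases hz' with h0 | h0 | h0
      · exact hij (hx h0)
      · exact hxy _ _ h0
      · exact hwx _ _ h0.symm
      · exact hxy _ _ h0.symm
      · exact hij (add_right_cancel (hy h0))
      · exact hwy _ _ h0.symm
      · exact hwx _ _ h0
      · exact hwy _ _ h0
      · exact hij (hw h0)
    exact no_three h (hE 0) (hE 1) (hE 2) (hdis 0 1 (by decide)) (hdis 0 2 (by decide))
      (hdis 1 2 (by decide))
  have hre : ∀ E : Fin 3 × Fin 3 → ℕ, ∑ q, E q = ∑ i, E (i, i + 0) + ∑ i, E (i, i + 1) +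
      ∑ i, E (i, i + 2) := by
    intro E
    rw [Fintype.sum_prod_type]
    simp only [Fin.sum_univ_three]
    have e1 : (0 : Fin 3) + 0 = 0 := rfl
    have e2 : (1 : Fin 3) + 0 = 1 := rfl
    have e3 : (2 : Fin 3) + 0 = 2 := rfl
    have e4 : (0 : Fin 3) + 1 = 1 := rfl
    have e5 : (1 : Fin 3) + 1 = 2 := rfl
    have e6 : (2 : Fin 3) + 1 = 0 := rfl
    have e7 : (0 : Fin 3) + 2 = 2 := rfl
    have e8 : (1 : Fin 3) + 2 = 0 := rfl
    have e9 : (2 : Fin 3) + 2 = 1 := rfl
    rw [e1, e2, e3, e4, e5, e6, e7, e8, e9]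
    ring
  have hs1 := hre D
  have hs2 := hre (fun q => if D q = 4 then 1 else 0)
  have p0 := hperm 0
  have p1 := hperm 1
  have p2 := hperm 2
  have hphi : ∑ q, (if D q = 4 then 1 else 0) =
      (univ.filter (fun q => D q = 4)).card := by
    rw [Finset.card_filter]
  rw [hphi] at hs2
  have hcount' : (H.filter (fun g => ¬ Disjoint g (univ.image x) ∧
      ¬ Disjoint g (univ.image y))).card + ((univ.filter (fun q => TL x y q ∉ H)).card +
        (univ.filter (fun q => TR x y q ∉ H)).card) ≤ 18 + ∑ q, D q := hcount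
  by_cases hq : ∃ q, D q = 4
  · obtain ⟨q0, hq0⟩ := hq
    obtain ⟨a, a', h1, h2, h3, h4⟩ := htype q0 hq0
    by_cases hall : ∀ q, D q = 4 → a ≠ q.1 ∧ a' ≠ q.2
    · have hP : (univ.filter (fun q => D q = 4)).card ≤ 4 := by
        refine (card_le_card ?_).trans (avoid_type a a')
        intro q hq
        rw [mem_filter] at hq ⊢
        exact ⟨hq.1, hall q hq.2⟩
      have hM := one_type a a'
      have m1 : ((univ : Finset (Fin 3 × Fin 3)).filter (fun q => (q.1 = a ∧ q.2 ≠ a'))).card ≤
          (univ.filter (fun q => TL x y q ∉ H)).card := by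
        refine card_le_card ?_
        intro q hq
        rw [mem_filter] at hq ⊢
        refine ⟨hq.1, ?_⟩
        obtain ⟨c, c'⟩ := q
        obtain ⟨-, rfl, hc⟩ := hq
        exact h3 _ hc
      have m2 : ((univ : Finset (Fin 3 × Fin 3)).filter (fun q => (q.2 = a' ∧ q.1 ≠ a))).card ≤
          (univ.filter (fun q => TR x y q ∉ H)).card := by
        refine card_le_card ?_
        intro q hq
        rw [mem_filter] at hq ⊢
        refine ⟨hq.1, ?_⟩
        obtain ⟨c, c'⟩ := q
        obtain ⟨-, rfl, hc⟩ := hq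
        exact h4 _ hc
      omega
    · push Not at hall
      obtain ⟨q1, hq1, hq1'⟩ := hall
      obtain ⟨b, b', k1, k2, k3, k4⟩ := htype q1 hq1
      have hne : a ≠ b ∨ a' ≠ b' := by
        by_contra hcon
        push Not at hcon
        obtain ⟨rfl, rfl⟩ := hcon
        exact k2 (hq1' k1)
      have hM := two_types a a' b b' hne
      have m1 : ((univ : Finset (Fin 3 × Fin 3)).filter
          (fun q => (q.1 = a ∧ q.2 ≠ a') ∨ (q.1 = b ∧ q.2 ≠ b'))).card ≤
          (univ.filter (fun q => TL x y q ∉ H)).card := by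
        refine card_le_card ?_
        intro q hq
        rw [mem_filter] at hq ⊢
        refine ⟨hq.1, ?_⟩
        obtain ⟨c, c'⟩ := q
        obtain ⟨-, ⟨rfl, hc⟩ | ⟨rfl, hc⟩⟩ := hq
        · exact h3 _ hc
        · exact k3 _ hc
      have m2 : ((univ : Finset (Fin 3 × Fin 3)).filter
          (fun q => (q.2 = a' ∧ q.1 ≠ a) ∨ (q.2 = b' ∧ q.1 ≠ b))).card ≤
          (univ.filter (fun q => TR x y q ∉ H)).card := by
        refine card_le_card ?_
        intro q hq
        rw [mem_filter] at hq ⊢
        refine ⟨hq.1, ?_⟩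
        obtain ⟨c, c'⟩ := q
        obtain ⟨-, ⟨rfl, hc⟩ | ⟨rfl, hc⟩⟩ := hq
        · exact h4 _ hc
        · exact k4 _ hc
      omega
  · push Not at hq
    have hP : (univ.filter (fun q => D q = 4)).card = 0 := by
      rw [Finset.card_eq_zero, Finset.filter_eq_empty_iff]
      intro q _
      exact hq q
    omega

end Res12
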