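import Mathlib

/-!
Project RES (MP_d365ae_co), helper10: graph lemmas (graphs = families of 2-sets with maximum
degree at most three) used in `B46.lean`.
-/

namespace Res12

open Finset

set_option linter.unusedSectionVars false

variable {V : Type} [Fintype V] [DecidableEq V]

namespace B46

/-- A graph with maximum degree at most three. -/
structure Gr (P : Finset (Finset V)) : Prop where
  two : ∀ q ∈ P, q.card = 2
  deg : ∀ w, (P.filter (fun q => w ∈ q)).card ≤ 3

theorem Gr.avoid_one {P : Finset (Finset V)} (hP : Gr P) (h4 : 4 ≤ P.card) (w : V) :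
    ∃ q ∈ P, w ∉ q := by
  by_contra hcon
  push Not at hcon
  have h1 : P.filter (fun q => w ∈ q) = P := Finset.filter_true_of_mem hcon
  have := hP.deg w
  rw [h1] at this
  omega

theorem Gr.avoid_two {P : Finset (Finset V)} (hP : Gr P) (h7 : 7 ≤ P.card) (w w' : V) :
    ∃ q ∈ P, w ∉ q ∧ w' ∉ q := by
  by_contra hcon
  push Not at hcon
  have h1 : P ⊆ P.filter (fun q => w ∈ q) ∪ P.filter (fun q => w' ∈ q) := by
    intro q hq
    rw [mem_union, mem_filter, mem_filter]
    by_cases h : w ∈ q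
    · exact Or.inl ⟨hq, h⟩
    · exact Or.inr ⟨hq, hcon q hq h⟩
  have h2 := card_le_card h1
  have h3 := card_union_le (P.filter (fun q => w ∈ q)) (P.filter (fun q => w' ∈ q))
  have := hP.deg w
  have := hP.deg w'
  omega

theorem Gr.erase_le {P : Finset (Finset V)} (hP : Gr P) (h4 : 4 ≤ P.card) {A : Finset V} {b : V}
    (hc : ∀ a ∈ A, a ≠ b → ∀ q ∈ P, a ∈ q ∨ b ∈ q) :
    (A.erase b).card ≤ 2 ∧ ((A.erase b).card = 2 →
      P.card = 4 ∧ (P.filter (fun q => b ∈ q)).card = 3) := by
  obtain ⟨q0, hq0, hbq0⟩ := hP.avoid_one h4 b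
  have hsub : ∀ q ∈ P, b ∉ q → A.erase b ⊆ q := by
    intro q hq hb a ha
    rw [mem_erase] at ha
    exact (hc a ha.2 ha.1 q hq).resolve_right hb
  have h1 := card_le_card (hsub q0 hq0 hbq0)
  rw [hP.two q0 hq0] at h1
  refine ⟨h1, fun h2 => ?_⟩
  have h3 : (P.filter (fun q => ¬ b ∈ q)).card ≤ 1 := by
    rw [Finset.card_le_one]
    intro p hp p' hp'
    rw [mem_filter] at hp hp'
    have e1 := Finset.eq_of_subset_of_card_le (hsub p hp.1 hp.2) (by rw [hP.two p hp.1, h2])
    have e2 := Finset.eq_of_subset_of_card_le (hsub p' hp'.1 hp'.2) (by rw [hP.two p' hp'.1, h2])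
    rw [← e1, ← e2]
  have h4 := Finset.card_filter_add_card_filter_not (s := P) (fun q => b ∈ q)
  have h5 := hP.deg b
  omega

theorem Gr.T_aux {P : Finset (Finset V)} (hP : Gr P) (h4 : 4 ≤ P.card) {A B : Finset V}
    (hc : ∀ a ∈ A, ∀ b ∈ B, a ≠ b → ∀ q ∈ P, a ∈ q ∨ b ∈ q) (hA : 3 ≤ A.card)
    (hB : 2 ≤ B.card) : False := by
  have key : ∀ b ∈ B, P.card = 4 ∧ (P.filter (fun q => b ∈ q)).card = 3 := by
    intro b hb
    obtain ⟨h1, h2⟩ := hP.erase_le h4 (A := A) (b := b) (fun a ha hab => hc a ha b hb hab)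
    have h3 := Finset.pred_card_le_card_erase (s := A) (a := b)
    exact h2 (by omega)
  obtain ⟨b, hb, b', hb', hne⟩ := Finset.one_lt_card.1 (show 1 < B.card by omega)
  have k1 := key b hb
  have k2 := key b' hb'
  have hi : (P.filter (fun q => b ∈ q) ∩ P.filter (fun q => b' ∈ q)).card ≤ 1 := by
    rw [Finset.card_le_one]
    intro p hp p' hp'
    rw [mem_inter, mem_filter, mem_filter] at hp hp'
    have hs : ∀ q ∈ P, b ∈ q → b' ∈ q → ({b, b'} : Finset V) = q := by
      intro q hq h1 h2
      refine Finset.eq_of_subset_of_card_le ?_ (by rw [hP.two q hq, Finset.card_pair hne])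
      intro z hz
      rw [mem_insert, mem_singleton] at hz
      rcases hz with rfl | rfl <;> assumption
    rw [← hs p hp.1.1 hp.1.2 hp.2.2, ← hs p' hp'.1.1 hp'.1.2 hp'.2.2]
  have hu : (P.filter (fun q => b ∈ q) ∪ P.filter (fun q => b' ∈ q)).card ≤ P.card := by
    apply card_le_card
    exact union_subset (filter_subset _ _) (filter_subset _ _)
  have h6 := Finset.card_union_add_card_inter (P.filter (fun q => b ∈ q))
    (P.filter (fun q => b' ∈ q))
  omega

/-- The row lemma: if every pair `a ∈ A`, `b ∈ B`, `a ≠ b` covers the graph `P` with at least four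
edges, then `|A| + |B| ≤ 4`. -/
theorem Gr.T {P : Finset (Finset V)} (hP : Gr P) (h4 : 4 ≤ P.card) {A B : Finset V}
    (hA : A.card ≤ 4) (hB : B.card ≤ 4)
    (hc : ∀ a ∈ A, ∀ b ∈ B, a ≠ b → ∀ q ∈ P, a ∈ q ∨ b ∈ q) : A.card + B.card ≤ 4 := by
  by_contra hcon
  push Not at hcon
  have hc' : ∀ b ∈ B, ∀ a ∈ A, b ≠ a → ∀ q ∈ P, b ∈ q ∨ a ∈ q :=
    fun b hb a ha hab q hq => (hc a ha b hb hab.symm q hq).symm
  rcases B.eq_empty_or_nonempty with rfl | ⟨b, hb⟩
  · rw [card_empty] at hcon
    omega
  rcases A.eq_empty_or_nonempty with rfl | ⟨a, ha⟩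
  · rw [card_empty] at hcon
    omega
  have h1 := (hP.erase_le h4 (A := A) (b := b) (fun a ha hab => hc a ha b hb hab)).1
  have h2 := (hP.erase_le h4 (A := B) (b := a) (fun b hb hab => hc' b hb a ha hab)).1
  have h3 := Finset.pred_card_le_card_erase (s := A) (a := b)
  have h3' := Finset.pred_card_le_card_erase (s := B) (a := a)
  by_cases h5 : 3 ≤ A.card
  · exact hP.T_aux h4 hc h5 (by omega)
  · exact hP.T_aux h4 hc' (by omega) (by omega)

/-- A graph with at least four edges and maximum degree at most three has at most two covers of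
size two. -/
theorem Gr.two_covers {P C : Finset (Finset V)} (hP : Gr P) (h4 : 4 ≤ P.card)
    (hC : ∀ q ∈ C, q.card = 2) (hc : ∀ q ∈ C, ∀ p ∈ P, ¬ Disjoint q p) : C.card ≤ 2 := by
  by_contra hcon
  push Not at hcon
  obtain ⟨q1, h1, q2, h2, q3, h3, n12, n13, n23⟩ := Finset.two_lt_card.1 hcon
  have hdis : ∀ q1 ∈ C, ∀ q2 ∈ C, ∀ q3 ∈ C, q1 ≠ q3 → q2 ≠ q3 → Disjoint q1 q2 → False := by
    intro q1 h1 q2 h2 q3 h3 n13 n23 hd
    have a1 : ∃ u ∈ q1, u ∉ q3 := by
      by_contra hh
      push Not at hh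
      exact n13 (Finset.eq_of_subset_of_card_le hh (by rw [hC _ h1, hC _ h3]))
    have a2 : ∃ u ∈ q2, u ∉ q3 := by
      by_contra hh
      push Not at hh
      exact n23 (Finset.eq_of_subset_of_card_le hh (by rw [hC _ h2, hC _ h3]))
    obtain ⟨u, hu, hu3⟩ := a1
    obtain ⟨v, hv, hv3⟩ := a2
    have hsub : P ⊆ ((q1 ×ˢ q2).image (fun z => ({z.1, z.2} : Finset V))).erase {u, v} := by
      intro p hp
      rw [mem_erase]
      constructor
      · rintro rfl
        apply hc q3 h3 _ hp
        rw [Finset.disjoint_right]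
        intro z hz
        rw [mem_insert, mem_singleton] at hz
        rcases hz with rfl | rfl <;> assumption
      · obtain ⟨a, ha, ha'⟩ := Finset.not_disjoint_iff.1 (hc q1 h1 p hp)
        obtain ⟨b, hb, hb'⟩ := Finset.not_disjoint_iff.1 (hc q2 h2 p hp)
        have hab : a ≠ b := by
          rintro rfl
          exact Finset.disjoint_left.1 hd ha hb
        rw [mem_image]
        refine ⟨(a, b), mem_product.2 ⟨ha, hb⟩, ?_⟩
        refine Finset.eq_of_subset_of_card_le ?_ (by rw [hP.two p hp, Finset.card_pair hab])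
        intro z hz
        rw [mem_insert, mem_singleton] at hz
        rcases hz with rfl | rfl <;> assumption
    have hmem : ({u, v} : Finset V) ∈ (q1 ×ˢ q2).image (fun z => ({z.1, z.2} : Finset V)) := by
      rw [mem_image]
      exact ⟨(u, v), mem_product.2 ⟨hu, hv⟩, rfl⟩
    have h5 := card_le_card hsub
    rw [Finset.card_erase_of_mem hmem] at h5
    have h6 : ((q1 ×ˢ q2).image (fun z => ({z.1, z.2} : Finset V))).card ≤ 4 := by
      refine card_image_le.trans ?_
      rw [card_product, hC _ h1, hC _ h2]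
    omega
  by_cases d12 : Disjoint q1 q2
  · exact hdis q1 h1 q2 h2 q3 h3 n13 n23 d12
  by_cases d13 : Disjoint q1 q3
  · exact hdis q1 h1 q3 h3 q2 h2 n12 n23.symm d13
  by_cases d23 : Disjoint q2 q3
  · exact hdis q2 h2 q3 h3 q1 h1 n12.symm n13.symm d23
  obtain ⟨w, hw1, hw2⟩ := Finset.not_disjoint_iff.1 d12
  obtain ⟨a, haw, ha⟩ : ∃ a, a ≠ w ∧ q1 = {w, a} := by
    obtain ⟨c, d, hcd, rfl⟩ := Finset.card_eq_two.1 (hC q1 h1)
    rw [mem_insert, mem_singleton] at hw1
    rcases hw1 with rfl | rfl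
    · exact ⟨d, hcd.symm, rfl⟩
    · exact ⟨c, hcd, Finset.pair_comm _ _⟩
  obtain ⟨b, hbw, hb⟩ : ∃ b, b ≠ w ∧ q2 = {w, b} := by
    obtain ⟨c, d, hcd, rfl⟩ := Finset.card_eq_two.1 (hC q2 h2)
    rw [mem_insert, mem_singleton] at hw2
    rcases hw2 with rfl | rfl
    · exact ⟨d, hcd.symm, rfl⟩
    · exact ⟨c, hcd, Finset.pair_comm _ _⟩
  have hab : a ≠ b := by
    rintro rfl
    exact n12 (ha.trans hb.symm)
  by_cases hw3 : w ∈ q3
  · obtain ⟨c, hcw, hc3⟩ : ∃ c, c ≠ w ∧ q3 = {w, c} := by
      obtain ⟨c, d, hcd, rfl⟩ := Finset.card_eq_two.1 (hC q3 h3)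
      rw [mem_insert, mem_singleton] at hw3
      rcases hw3 with rfl | rfl
      · exact ⟨d, hcd.symm, rfl⟩
      · exact ⟨c, hcd, Finset.pair_comm _ _⟩
    have hac : a ≠ c := by
      rintro rfl
      exact n13 (ha.trans hc3.symm)
    have hbc : b ≠ c := by
      rintro rfl
      exact n23 (hb.trans hc3.symm)
    obtain ⟨p, hp, hwp⟩ := hP.avoid_one h4 w
    have m1 : a ∈ p := by
      obtain ⟨z, hz, hz'⟩ := Finset.not_disjoint_iff.1 (hc q1 h1 p hp)
      rw [ha, mem_insert, mem_singleton] at hz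
      rcases hz with rfl | rfl
      · exact absurd hz' hwp
      · exact hz'
    have m2 : b ∈ p := by
      obtain ⟨z, hz, hz'⟩ := Finset.not_disjoint_iff.1 (hc q2 h2 p hp)
      rw [hb, mem_insert, mem_singleton] at hz
      rcases hz with rfl | rfl
      · exact absurd hz' hwp
      · exact hz'
    have m3 : c ∈ p := by
      obtain ⟨z, hz, hz'⟩ := Finset.not_disjoint_iff.1 (hc q3 h3 p hp)
      rw [hc3, mem_insert, mem_singleton] at hz
      rcases hz with rfl | rfl
      · exact absurd hz' hwp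
      · exact hz'
    have h5 : ({a, b, c} : Finset V) ⊆ p := by
      intro z hz
      simp only [mem_insert, mem_singleton] at hz
      rcases hz with rfl | rfl | rfl <;> assumption
    have h6 := card_le_card h5
    rw [hP.two p hp, Finset.card_eq_three.2 ⟨a, b, c, hab, hac, hbc, rfl⟩] at h6
    omega
  · have a3 : a ∈ q3 := by
      obtain ⟨z, hz, hz'⟩ := Finset.not_disjoint_iff.1 d13
      rw [ha, mem_insert, mem_singleton] at hz
      rcases hz with rfl | rfl
      · exact absurd hz' hw3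
      · exact hz'
    have b3 : b ∈ q3 := by
      obtain ⟨z, hz, hz'⟩ := Finset.not_disjoint_iff.1 d23
      rw [hb, mem_insert, mem_singleton] at hz
      rcases hz with rfl | rfl
      · exact absurd hz' hw3
      · exact hz'
    have hq3 : q3 = {a, b} := by
      symm
      refine Finset.eq_of_subset_of_card_le ?_ (by rw [hC q3 h3, Finset.card_pair hab])
      intro z hz
      rw [mem_insert, mem_singleton] at hz
      rcases hz with rfl | rfl <;> assumption
    have hsub : P ⊆ {q1, q2, q3} := by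
      intro p hp
      have k1 := hc q1 h1 p hp
      have k2 := hc q2 h2 p hp
      have k3 := hc q3 h3 p hp
      have pr : ∀ u v : V, u ≠ v → u ∈ p → v ∈ p → p = {u, v} := by
        intro u v huv hu hv
        symm
        refine Finset.eq_of_subset_of_card_le ?_ (by rw [hP.two p hp, Finset.card_pair huv])
        intro z hz
        rw [mem_insert, mem_singleton] at hz
        rcases hz with rfl | rfl <;> assumption
      rw [ha, Finset.not_disjoint_iff] at k1
      rw [hb, Finset.not_disjoint_iff] at k2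
      rw [hq3, Finset.not_disjoint_iff] at k3
      simp only [mem_insert, mem_singleton, exists_eq_or_imp, exists_eq_left] at k1 k2 k3
      simp only [mem_insert, mem_singleton]
      rw [ha, hb, hq3]
      rcases k1 with k1 | k1
      · rcases k3 with k3 | k3
        · left; exact pr _ _ haw.symm k1 k3
        · right; left; exact pr _ _ hbw.symm k1 k3
      · rcases k2 with k2 | k2
        · left; exact pr _ _ haw.symm k2 k1
        · right; right; exact pr _ _ hab k1 k2
    have h5 := card_le_card hsub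
    have h6 : ({q1, q2, q3} : Finset (Finset V)).card ≤ 3 := Finset.card_le_three
    omega

end B46

end Res12
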