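import Mathlib
import Pool.Agent.Helper10.Res.B36
import Pool.Agent.Helper10.Res.Gr
import Pool.Agent.Helper10.Res.Ar

/-!
Project RES (MP_d365ae_co), helper10: the geometry of a matching `{e, f}` in a 2-resilient
3-graph with matching number two.
-/

namespace Res12

open Finset

set_option linter.unusedSectionVars false

variable {V : Type} [Fintype V] [DecidableEq V]

namespace B46

/-- The union of the blocks. -/
def U (x y : Fin 3 → V) : Finset V := univ.image x ∪ univ.image y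

/-- The set with `x`-part `I`, `y`-part `J` and outer part `Q`. -/
def pt (x y : Fin 3 → V) (I J : Finset (Fin 3)) (Q : Finset V) : Finset V :=
  I.image x ∪ J.image y ∪ Q

/-- A matching `{e, f}` with enumerations `x` of `e` and `y` of `f`. -/
structure Loc (H : Finset (Finset V)) (x y : Fin 3 → V) : Prop where
  hyp : Hyp H 2
  hx : Function.Injective x
  hy : Function.Injective y
  hxy : ∀ i j, x i ≠ y j
  he : univ.image x ∈ H
  hf : univ.image y ∈ H

variable {H : Finset (Finset V)} {x y : Fin 3 → V}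

theorem mem_pt {I J : Finset (Fin 3)} {Q : Finset V} {z : V} :
    z ∈ pt x y I J Q ↔ (∃ i ∈ I, x i = z) ∨ (∃ j ∈ J, y j = z) ∨ z ∈ Q := by
  unfold pt
  rw [mem_union, mem_union, mem_image, mem_image, or_assoc]

theorem x_mem_U (i : Fin 3) : x i ∈ U x y := mem_union_left _ (mem_image_of_mem x (mem_univ i))

theorem y_mem_U (j : Fin 3) : y j ∈ U x y := mem_union_right _ (mem_image_of_mem y (mem_univ j))

theorem Loc.pt_disjoint (L : Loc H x y) {I J I' J' : Finset (Fin 3)} {Q Q' : Finset V}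
    (hI : Disjoint I I') (hJ : Disjoint J J') (hQ : Disjoint Q Q') (hq : Disjoint Q (U x y))
    (hq' : Disjoint Q' (U x y)) : Disjoint (pt x y I J Q) (pt x y I' J' Q') := by
  rw [Finset.disjoint_left]
  intro z hz hz'
  rw [mem_pt] at hz hz'
  rcases hz with ⟨i, hi, rfl⟩ | ⟨i, hi, rfl⟩ | hz <;>
    rcases hz' with ⟨i', hi', h⟩ | ⟨i', hi', h⟩ | hz'
  · rw [L.hx h] at hi'
    exact Finset.disjoint_left.1 hI hi hi'
  · exact L.hxy _ _ h.symm
  · exact Finset.disjoint_left.1 hq' hz' (x_mem_U i)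
  · exact L.hxy _ _ h
  · rw [L.hy h] at hi'
    exact Finset.disjoint_left.1 hJ hi hi'
  · exact Finset.disjoint_left.1 hq' hz' (y_mem_U i)
  · exact Finset.disjoint_left.1 hq hz (h ▸ x_mem_U i')
  · exact Finset.disjoint_left.1 hq hz (h ▸ y_mem_U i')
  · exact Finset.disjoint_left.1 hQ hz hz'

theorem Loc.pt_card (L : Loc H x y) {I J : Finset (Fin 3)} {Q : Finset V}
    (hq : Disjoint Q (U x y)) : (pt x y I J Q).card = I.card + J.card + Q.card := by
  unfold pt
  rw [card_union_of_disjoint, card_union_of_disjoint, card_image_of_injective _ L.hx,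
    card_image_of_injective _ L.hy]
  · rw [Finset.disjoint_left]
    intro z hz hz'
    rw [mem_image] at hz hz'
    obtain ⟨i, -, rfl⟩ := hz
    obtain ⟨j, -, h⟩ := hz'
    exact L.hxy _ _ h.symm
  · rw [Finset.disjoint_left]
    intro z hz hz'
    apply Finset.disjoint_left.1 hq hz'
    rw [mem_union, mem_image, mem_image] at hz
    rcases hz with ⟨i, -, rfl⟩ | ⟨i, -, rfl⟩
    · exact x_mem_U i
    · exact y_mem_U i

theorem pt_parts (g : Finset V) :
    pt x y (univ.filter (fun i => x i ∈ g)) (univ.filter (fun j => y j ∈ g)) (g \ U x y) = g := by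
  ext z
  rw [mem_pt]
  constructor
  · rintro (⟨i, hi, rfl⟩ | ⟨j, hj, rfl⟩ | hz)
    · exact (mem_filter.1 hi).2
    · exact (mem_filter.1 hj).2
    · exact (mem_sdiff.1 hz).1
  · intro hz
    by_cases hU : z ∈ U x y
    · unfold U at hU
      rw [mem_union, mem_image, mem_image] at hU
      rcases hU with ⟨i, -, rfl⟩ | ⟨i, -, rfl⟩
      · exact Or.inl ⟨i, mem_filter.2 ⟨mem_univ _, hz⟩, rfl⟩
      · exact Or.inr (Or.inl ⟨i, mem_filter.2 ⟨mem_univ _, hz⟩, rfl⟩)
    · exact Or.inr (Or.inr (mem_sdiff.2 ⟨hz, hU⟩))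

theorem pt_e : pt x y univ ∅ ∅ = univ.image x := by
  unfold pt
  simp

theorem pt_f : pt x y ∅ univ ∅ = univ.image y := by
  unfold pt
  simp

/-- An edge in the encoding. -/
structure Ed (H : Finset (Finset V)) (x y : Fin 3 → V) (I J : Finset (Fin 3)) (Q : Finset V) :
    Prop where
  mem : pt x y I J Q ∈ H
  out : Disjoint Q (U x y)

theorem Loc.e (L : Loc H x y) : Ed H x y univ ∅ ∅ :=
  ⟨by rw [pt_e]; exact L.he, disjoint_empty_left _⟩

theorem Loc.f (L : Loc H x y) : Ed H x y ∅ univ ∅ :=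
  ⟨by rw [pt_f]; exact L.hf, disjoint_empty_left _⟩

theorem Ed.card (L : Loc H x y) {I J : Finset (Fin 3)} {Q : Finset V} (h : Ed H x y I J Q) :
    I.card + J.card + Q.card = 3 := by
  rw [← L.pt_card h.out]
  exact L.hyp.three _ h.mem

/-- Three pairwise disjoint edges are impossible. -/
theorem Loc.no3 (L : Loc H x y) {I1 J1 I2 J2 I3 J3 : Finset (Fin 3)} {Q1 Q2 Q3 : Finset V}
    (h1 : Ed H x y I1 J1 Q1) (h2 : Ed H x y I2 J2 Q2) (h3 : Ed H x y I3 J3 Q3)
    (a12 : Disjoint I1 I2) (a13 : Disjoint I1 I3) (a23 : Disjoint I2 I3)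
    (b12 : Disjoint J1 J2) (b13 : Disjoint J1 J3) (b23 : Disjoint J2 J3)
    (c12 : Disjoint Q1 Q2) (c13 : Disjoint Q1 Q3) (c23 : Disjoint Q2 Q3) : False :=
  B36.no_three L.hyp h1.mem h2.mem h3.mem (L.pt_disjoint a12 b12 c12 h1.out h2.out)
    (L.pt_disjoint a13 b13 c13 h1.out h3.out) (L.pt_disjoint a23 b23 c23 h2.out h3.out)

theorem disj_filter {V' : Type} [DecidableEq V'] {x : Fin 3 → V'} {g g' : Finset V'}
    (h : Disjoint g g') :
    Disjoint (univ.filter (fun i => x i ∈ g)) (univ.filter (fun i => x i ∈ g')) := by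
  rw [Finset.disjoint_left]
  intro i hi hi'
  rw [mem_filter] at hi hi'
  exact Finset.disjoint_left.1 h hi.2 hi'.2

/-- A maximum matching avoiding two points, in the encoding. -/
structure Av (H : Finset (Finset V)) (x y : Fin 3 → V) (a b : V) (I1 J1 : Finset (Fin 3))
    (Q1 : Finset V) (I2 J2 : Finset (Fin 3)) (Q2 : Finset V) : Prop where
  h1 : Ed H x y I1 J1 Q1
  h2 : Ed H x y I2 J2 Q2
  dI : Disjoint I1 I2
  dJ : Disjoint J1 J2
  dQ : Disjoint Q1 Q2
  a1 : a ∉ pt x y I1 J1 Q1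
  a2 : a ∉ pt x y I2 J2 Q2
  b1 : b ∉ pt x y I1 J1 Q1
  b2 : b ∉ pt x y I2 J2 Q2

theorem Loc.avoid (L : Loc H x y) (a b : V) :
    ∃ I1 J1 Q1 I2 J2 Q2, Av H x y a b I1 J1 Q1 I2 J2 Q2 := by
  classical
  obtain ⟨Q, hQ, hmQ, hcQ, hav⟩ := L.hyp.avoid a b
  obtain ⟨g1, g2, hne, rfl⟩ := Finset.card_eq_two.1 hcQ
  have hg1 : g1 ∈ H := hQ (by simp)
  have hg2 : g2 ∈ H := hQ (by simp)
  have hdg : Disjoint g1 g2 := hmQ g1 (by simp) g2 (by simp) hne
  have hav1 := hav g1 (by simp)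
  have hav2 := hav g2 (by simp)
  refine ⟨univ.filter (fun i => x i ∈ g1), univ.filter (fun j => y j ∈ g1), g1 \ U x y,
    univ.filter (fun i => x i ∈ g2), univ.filter (fun j => y j ∈ g2), g2 \ U x y, ?_⟩
  constructor
  · exact ⟨by rw [pt_parts]; exact hg1, disjoint_sdiff_self_left⟩
  · exact ⟨by rw [pt_parts]; exact hg2, disjoint_sdiff_self_left⟩
  · exact disj_filter hdg
  · exact disj_filter hdg
  · exact hdg.mono sdiff_subset sdiff_subset
  · rw [pt_parts]; exact hav1.1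
  · rw [pt_parts]; exact hav2.1
  · rw [pt_parts]; exact hav1.2
  · rw [pt_parts]; exact hav2.2

theorem Av.swap {a b : V} {I1 J1 : Finset (Fin 3)} {Q1 : Finset V} {I2 J2 : Finset (Fin 3)}
    {Q2 : Finset V} (h : Av H x y a b I1 J1 Q1 I2 J2 Q2) : Av H x y a b I2 J2 Q2 I1 J1 Q1 :=
  ⟨h.h2, h.h1, h.dI.symm, h.dJ.symm, h.dQ.symm, h.a2, h.a1, h.b2, h.b1⟩

theorem x_notMem {I J : Finset (Fin 3)} {Q : Finset V} {i : Fin 3}
    (h : x i ∉ pt x y I J Q) : i ∉ I := fun hi => h (mem_pt.2 (Or.inl ⟨i, hi, rfl⟩))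

theorem y_notMem {I J : Finset (Fin 3)} {Q : Finset V} {i : Fin 3}
    (h : y i ∉ pt x y I J Q) : i ∉ J := fun hi => h (mem_pt.2 (Or.inr (Or.inl ⟨i, hi, rfl⟩)))

theorem w_notMem {I J : Finset (Fin 3)} {Q : Finset V} {w : V}
    (h : w ∉ pt x y I J Q) : w ∉ Q := fun hi => h (mem_pt.2 (Or.inr (Or.inr hi)))

section
variable {a b : V} {I1 J1 : Finset (Fin 3)} {Q1 : Finset V} {I2 J2 : Finset (Fin 3)}
  {Q2 : Finset V}

/-- The block `e` meets the matching. -/
theorem Av.meet_e (L : Loc H x y) (h : Av H x y a b I1 J1 Q1 I2 J2 Q2) :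
    I1.Nonempty ∨ I2.Nonempty := by
  by_contra hcon
  push Not at hcon
  obtain ⟨h1, h2⟩ := hcon
  refine L.no3 L.e h.h1 h.h2 ?_ ?_ ?_ (disjoint_empty_left _) (disjoint_empty_left _) h.dJ
    (disjoint_empty_left _) (disjoint_empty_left _) h.dQ
  · rw [h1]; exact disjoint_empty_right _
  · rw [h2]; exact disjoint_empty_right _
  · exact h.dI

/-- The block `f` meets the matching. -/
theorem Av.meet_f (L : Loc H x y) (h : Av H x y a b I1 J1 Q1 I2 J2 Q2) :
    J1.Nonempty ∨ J2.Nonempty := by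
  by_contra hcon
  push Not at hcon
  obtain ⟨h1, h2⟩ := hcon
  refine L.no3 L.f h.h1 h.h2 (disjoint_empty_left _) (disjoint_empty_left _) h.dI ?_ ?_ ?_
    (disjoint_empty_left _) (disjoint_empty_left _) h.dQ
  · rw [h1]; exact disjoint_empty_right _
  · rw [h2]; exact disjoint_empty_right _
  · exact h.dJ

/-- Every edge meets a block. -/
theorem Ed.meet (L : Loc H x y) {I J : Finset (Fin 3)} {Q : Finset V} (h : Ed H x y I J Q) :
    I.Nonempty ∨ J.Nonempty := by
  by_contra hcon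
  push Not at hcon
  obtain ⟨h1, h2⟩ := hcon
  refine L.no3 L.e L.f h (disjoint_empty_right _) ?_ ?_ (disjoint_empty_left _) ?_ ?_
    (disjoint_empty_left _) (disjoint_empty_left _) (disjoint_empty_left _)
  · rw [h1]; exact disjoint_empty_right _
  · rw [h1]; exact disjoint_empty_right _
  · rw [h2]; exact disjoint_empty_right _
  · rw [h2]; exact disjoint_empty_right _

end

/-- The outer codegree set of a cell. -/
def D (H : Finset (Finset V)) (x y : Fin 3 → V) (i j : Fin 3) : Finset V :=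
  N H (x i) (y j) \ U x y

/-- Own pairs opposite to `x i`. -/
def S (H : Finset (Finset V)) (x y : Fin 3 → V) (i : Fin 3) : Finset V :=
  univ.filter (fun w => w ∉ U x y ∧ pt x y (univ.erase i) ∅ {w} ∈ H)

/-- The own graph at `x i`. -/
def P (H : Finset (Finset V)) (x y : Fin 3 → V) (i : Fin 3) : Finset (Finset V) :=
  ((univ \ U x y).powersetCard 2).filter (fun q => pt x y {i} ∅ q ∈ H)

theorem disj_single {w : V} (h : w ∉ U x y) : Disjoint ({w} : Finset V) (U x y) :=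
  disjoint_singleton_left.2 h

theorem mem_D {i j : Fin 3} {w : V} : w ∈ D H x y i j ↔ Ed H x y {i} {j} {w} := by
  unfold D
  rw [mem_sdiff, mem_N]
  have h1 : pt x y {i} {j} {w} = {x i, y j, w} := by
    ext z
    rw [mem_pt]
    simp only [mem_singleton, mem_insert, exists_eq_left]
    tauto
  constructor
  · rintro ⟨h2, h3⟩
    exact ⟨by rw [h1]; exact h2, disj_single h3⟩
  · rintro ⟨h2, h3⟩
    rw [h1] at h2
    exact ⟨h2, disjoint_singleton_left.1 h3⟩

theorem mem_S {i : Fin 3} {w : V} : w ∈ S H x y i ↔ Ed H x y (univ.erase i) ∅ {w} := by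
  unfold S
  rw [mem_filter]
  constructor
  · rintro ⟨-, h2, h3⟩
    exact ⟨h3, disj_single h2⟩
  · rintro ⟨h2, h3⟩
    exact ⟨mem_univ _, disjoint_singleton_left.1 h3, h2⟩

theorem mem_P {i : Fin 3} {q : Finset V} : q ∈ P H x y i ↔ Ed H x y {i} ∅ q ∧ q.card = 2 := by
  unfold P
  rw [mem_filter, mem_powersetCard]
  constructor
  · rintro ⟨⟨h1, h2⟩, h3⟩
    refine ⟨⟨h3, ?_⟩, h2⟩
    rw [Finset.disjoint_left]
    intro z hz
    exact (mem_sdiff.1 (h1 hz)).2
  · rintro ⟨⟨h1, h2⟩, h3⟩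
    refine ⟨⟨?_, h3⟩, h1⟩
    intro z hz
    exact mem_sdiff.2 ⟨mem_univ _, Finset.disjoint_left.1 h2 hz⟩

end B46

end Res12
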