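import Mathlib
import Pool.Agent.Helper10.Res.Geo

/-!
Project RES (MP_d365ae_co), helper10: the edges which avoid the block `f`.
-/

namespace Res12

open Finset

set_option linter.unusedSectionVars false

variable {V : Type} [Fintype V] [DecidableEq V]

namespace B46

variable {H : Finset (Finset V)} {x y : Fin 3 → V}

theorem star_card {C : Finset (Finset V)} (h2 : ∀ q ∈ C, q.card = 2) {w : V} {R : Finset V}
    (hw : w ∉ R) (h : ∀ q ∈ C, w ∈ q → ¬ Disjoint q R) :
    (C.filter (fun q => w ∈ q)).card ≤ R.card := by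
  have hsub : C.filter (fun q => w ∈ q) ⊆ R.image (fun z => ({w, z} : Finset V)) := by
    intro q hq
    rw [mem_filter] at hq
    obtain ⟨z, hz, hz'⟩ := Finset.not_disjoint_iff.1 (h q hq.1 hq.2)
    have hne : w ≠ z := by
      rintro rfl
      exact hw hz'
    rw [mem_image]
    refine ⟨z, hz', ?_⟩
    refine Finset.eq_of_subset_of_card_le ?_ (by rw [h2 q hq.1, Finset.card_pair hne])
    intro u hu
    rw [mem_insert, mem_singleton] at hu
    rcases hu with rfl | rfl
    · exact hq.2
    · exact hz
  exact (card_le_card hsub).trans card_image_le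

/-- Edges disjoint from `f` meet each other. -/
theorem Loc.cross (L : Loc H x y) {I I' : Finset (Fin 3)} {Q Q' : Finset V}
    (h : Ed H x y I ∅ Q) (h' : Ed H x y I' ∅ Q') (hi : Disjoint I I') : ¬ Disjoint Q Q' := by
  intro hd
  exact L.no3 L.f h h' (disjoint_empty_left _) (disjoint_empty_left _) hi
    (disjoint_empty_right _) (disjoint_empty_right _) (disjoint_empty_left _)
    (disjoint_empty_left _) (disjoint_empty_left _) hd

theorem Loc.crossP (L : Loc H x y) {i : Fin 3} {I : Finset (Fin 3)} {Q q : Finset V}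
    (hq : q ∈ P H x y i) (h : Ed H x y I ∅ Q) (hi : i ∉ I) : ¬ Disjoint q Q :=
  L.cross (mem_P.1 hq).1 h (disjoint_singleton_left.2 hi)

theorem Av.hit (L : Loc H x y) {a b : V} {I1 J1 : Finset (Fin 3)} {Q1 : Finset V}
    {I2 J2 : Finset (Fin 3)} {Q2 : Finset V} (h : Av H x y a b I1 J1 Q1 I2 J2 Q2) {i : Fin 3}
    (i1 : i ∉ I1) (i2 : i ∉ I2) {q : Finset V} (hq : q ∈ P H x y i) :
    ¬ Disjoint q (Q1 ∪ Q2) := by
  intro hd
  rw [disjoint_union_right] at hd
  exact L.no3 (mem_P.1 hq).1 h.h1 h.h2 (disjoint_singleton_left.2 i1)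
    (disjoint_singleton_left.2 i2) h.dI (disjoint_empty_left _) (disjoint_empty_left _) h.dJ
    hd.1 hd.2 h.dQ

/-- Size of the outer part of a matching avoiding `x i`. -/
theorem Av.size (L : Loc H x y) {a b : V} {I1 J1 : Finset (Fin 3)} {Q1 : Finset V}
    {I2 J2 : Finset (Fin 3)} {Q2 : Finset V} (h : Av H x y a b I1 J1 Q1 I2 J2 Q2) :
    (J1 = ∅ ∧ Q1.card ≤ 2) ∨ (J2 = ∅ ∧ Q2.card ≤ 2) ∨
      (J1.Nonempty ∧ J2.Nonempty ∧ (Q1 ∪ Q2).card ≤ 3) := by
  have c1 := h.h1.card L
  have c2 := h.h2.card L
  rcases J1.eq_empty_or_nonempty with hJ1 | hJ1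
  · left
    refine ⟨hJ1, ?_⟩
    have := (h.h1.meet L).resolve_right (by rw [hJ1]; simp)
    have := Finset.card_pos.2 this
    omega
  rcases J2.eq_empty_or_nonempty with hJ2 | hJ2
  · right; left
    refine ⟨hJ2, ?_⟩
    have := (h.h2.meet L).resolve_right (by rw [hJ2]; simp)
    have := Finset.card_pos.2 this
    omega
  right; right
  refine ⟨hJ1, hJ2, ?_⟩
  have p1 := Finset.card_pos.2 hJ1
  have p2 := Finset.card_pos.2 hJ2
  have := card_union_le Q1 Q2
  rcases h.meet_e L with h3 | h3
  · have := Finset.card_pos.2 h3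
    omega
  · have := Finset.card_pos.2 h3
    omega

theorem Loc.gr (L : Loc H x y) (i : Fin 3) : Gr (P H x y i) := by
  constructor
  · intro q hq
    exact (mem_P.1 hq).2
  · intro w
    have h2 : ∀ q ∈ P H x y i, q.card = 2 := fun q hq => (mem_P.1 hq).2
    obtain ⟨I1, J1, Q1, I2, J2, Q2, h⟩ := L.avoid (x i) w
    have i1 := x_notMem h.a1
    have i2 := x_notMem h.a2
    have w1 := w_notMem h.b1
    have w2 := w_notMem h.b2
    rcases h.size L with ⟨hJ, hc⟩ | ⟨hJ, hc⟩ | ⟨-, -, hc⟩
    · have h1 := h.h1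
      rw [hJ] at h1
      exact (star_card h2 w1 (fun q hq _ => L.crossP hq h1 i1)).trans (by omega)
    · have h1 := h.h2
      rw [hJ] at h1
      exact (star_card h2 w2 (fun q hq _ => L.crossP hq h1 i2)).trans (by omega)
    · refine (star_card h2 (R := Q1 ∪ Q2) ?_ (fun q hq _ => h.hit L i1 i2 hq)).trans hc
      rw [mem_union]
      exact not_or.2 ⟨w1, w2⟩

theorem Loc.S_mem (L : Loc H x y) {i : Fin 3} {w : V} (hw : w ∈ S H x y i) {q : Finset V}
    (hq : q ∈ P H x y i) : w ∈ q := by
  by_contra hcon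
  refine L.crossP hq (mem_S.1 hw) (by simp) ?_
  exact disjoint_singleton_right.2 hcon

theorem two_others : ∀ i : Fin 3, ∃ a b : Fin 3, a ≠ b ∧ a ≠ i ∧ b ≠ i ∧
    (∀ c, c ≠ i → c = a ∨ c = b) := by decide

theorem Av.S_aux (L : Loc H x y) {i a b : Fin 3} {I1 J1 : Finset (Fin 3)} {Q1 : Finset V}
    {I2 J2 : Finset (Fin 3)} {Q2 : Finset V}
    (h : Av H x y (x a) (x b) I1 J1 Q1 I2 J2 Q2) (hab : ∀ c, c ≠ i → c = a ∨ c = b)
    (hn : I1.Nonempty) : (S H x y i).card ≤ 3 := by
  have a1 := x_notMem h.a1
  have a2 := x_notMem h.a2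
  have b1 := x_notMem h.b1
  have b2 := x_notMem h.b2
  have hs1 : ∀ c ∈ I1, c = i := by
    intro c hc
    by_contra hne
    rcases hab c hne with rfl | rfl
    · exact a1 hc
    · exact b1 hc
  have hs2 : ∀ c ∈ I2, c = i := by
    intro c hc
    by_contra hne
    rcases hab c hne with rfl | rfl
    · exact a2 hc
    · exact b2 hc
  have hi1 : i ∈ I1 := by
    obtain ⟨c, hc⟩ := hn
    rw [← hs1 c hc]
    exact hc
  have hI2 : I2 = ∅ := by
    rw [Finset.eq_empty_iff_forall_notMem]
    intro c hc
    have := hs2 c hc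
    rw [this] at hc
    exact Finset.disjoint_left.1 h.dI hi1 hc
  have d1 : Disjoint (univ.erase i) I1 := by
    rw [Finset.disjoint_left]
    intro c hc hc'
    exact (mem_erase.1 hc).1 (hs1 c hc')
  have d2 : Disjoint (univ.erase i) I2 := by
    rw [hI2]
    exact disjoint_empty_right _
  have c1 := h.h1.card L
  have c2 := h.h2.card L
  have p1 : 0 < I1.card := Finset.card_pos.2 hn
  have p2 : 0 < J2.card := Finset.card_pos.2 ((h.h2.meet L).resolve_left (by rw [hI2]; simp))
  rcases J1.eq_empty_or_nonempty with hJ1 | hJ1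
  · have h1 := h.h1
    rw [hJ1] at h1
    have hsub : S H x y i ⊆ Q1 := by
      intro w hw
      have := L.cross (mem_S.1 hw) h1 d1
      rw [disjoint_singleton_left, not_not] at this
      exact this
    have := card_le_card hsub
    omega
  · have p3 := Finset.card_pos.2 hJ1
    have hsub : S H x y i ⊆ Q1 ∪ Q2 := by
      intro w hw
      by_contra hcon
      rw [mem_union, not_or] at hcon
      exact L.no3 (mem_S.1 hw) h.h1 h.h2 d1 d2 h.dI (disjoint_empty_left _)
        (disjoint_empty_left _) h.dJ (disjoint_singleton_left.2 hcon.1)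
        (disjoint_singleton_left.2 hcon.2) h.dQ
    have h1 := card_le_card hsub
    have h2 := card_union_le Q1 Q2
    omega

theorem Loc.S_card (L : Loc H x y) (i : Fin 3) : (S H x y i).card ≤ 3 := by
  obtain ⟨a, b, -, -, -, hab⟩ := two_others i
  obtain ⟨I1, J1, Q1, I2, J2, Q2, h⟩ := L.avoid (x a) (x b)
  rcases h.meet_e L with h1 | h1
  · exact h.S_aux L hab h1
  · exact h.swap.S_aux L hab h1

/-- The possible values of the own numbers. -/
theorem Loc.own (L : Loc H x y) (i : Fin 3) :
    (S H x y i).card + (P H x y i).card ≤ 3 ∨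
    ((S H x y i).card = 0 ∧ 4 ≤ (P H x y i).card) ∨
    ((S H x y i).card = 1 ∧ (P H x y i).card = 3) := by
  have hS := L.S_card i
  rcases (P H x y i).eq_empty_or_nonempty with h0 | ⟨q, hq⟩
  · left
    rw [h0, card_empty]
    omega
  have h1 : (S H x y i).card ≤ 2 := by
    have : S H x y i ⊆ q := fun w hw => L.S_mem hw hq
    have := card_le_card this
    rw [(L.gr i).two q hq] at this
    exact this
  have h2 : 1 < (P H x y i).card → (S H x y i).card ≤ 1 := by
    intro h
    obtain ⟨p, hp, p', hp', hne⟩ := Finset.one_lt_card.1 h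
    have hsub : S H x y i ⊆ p ∩ p' := fun w hw =>
      mem_inter.2 ⟨L.S_mem hw hp, L.S_mem hw hp'⟩
    have h3 := card_le_card hsub
    have h4 : (p ∩ p').card < 2 := by
      rw [← (L.gr i).two p hp]
      apply Finset.card_lt_card
      refine ⟨inter_subset_left, ?_⟩
      intro hh
      apply hne
      refine Finset.eq_of_subset_of_card_le (fun z hz => (mem_inter.1 (hh hz)).2) ?_
      rw [(L.gr i).two p hp, (L.gr i).two p' hp']
    omega
  have h3 : 0 < (S H x y i).card → (P H x y i).card ≤ 3 := by
    intro h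
    obtain ⟨w, hw⟩ := Finset.card_pos.1 h
    have := (L.gr i).deg w
    rwa [Finset.filter_true_of_mem (fun p hp => L.S_mem hw hp)] at this
  have h4 := Finset.card_pos.2 ⟨q, hq⟩
  by_cases h5 : 1 < (P H x y i).card
  · have := h2 h5
    by_cases h6 : 0 < (S H x y i).card
    · have := h3 h6
      omega
    · omega
  · omega

/-- If the own graph at `x i` has at least four edges, the other own numbers are small. -/
theorem Loc.other (L : Loc H x y) {i r : Fin 3} (hir : r ≠ i) (h4 : 4 ≤ (P H x y i).card) :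
    (S H x y r).card + (P H x y r).card ≤ 3 := by
  have h2 : (P H x y r).card ≤ 2 := by
    refine (L.gr i).two_covers h4 (fun q hq => (mem_P.1 hq).2) ?_
    intro q hq p hp
    exact L.crossP hq (mem_P.1 hp).1 (by
      rw [mem_singleton]
      exact hir)
  rcases L.own r with h | h | h <;> omega

/-- If the own graph at `x i` has at least seven edges, the other own graphs are empty. -/
theorem Loc.other7 (L : Loc H x y) {i r : Fin 3} (hir : r ≠ i) (h7 : 7 ≤ (P H x y i).card) :
    P H x y r = ∅ := by
  rw [Finset.eq_empty_iff_forall_notMem]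
  intro q hq
  obtain ⟨a, b, hab, rfl⟩ := Finset.card_eq_two.1 (mem_P.1 hq).2
  obtain ⟨p, hp, ha, hb⟩ := (L.gr i).avoid_two h7 a b
  refine L.crossP hq (mem_P.1 hp).1 (by
    rw [mem_singleton]
    exact hir) ?_
  rw [Finset.disjoint_left]
  intro z hz
  rw [mem_insert, mem_singleton] at hz
  rcases hz with rfl | rfl <;> assumption

/-- The own count. -/
theorem Loc.count_own (L : Loc H x y) :
    (H.filter (fun g => Disjoint g (univ.image y))).card ≤
      1 + ((S H x y 0).card + (P H x y 0).card + ((S H x y 1).card + (P H x y 1).card) +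
        ((S H x y 2).card + (P H x y 2).card)) := by
  classical
  have hsub : H.filter (fun g => Disjoint g (univ.image y)) ⊆
      {univ.image x} ∪ (univ.biUnion (fun i : Fin 3 =>
        (S H x y i).image (fun w => pt x y (univ.erase i) ∅ {w}) ∪
        (P H x y i).image (fun q => pt x y {i} ∅ q))) := by
    intro g hg
    rw [mem_filter] at hg
    obtain ⟨hgH, hgf⟩ := hg
    have hJ : univ.filter (fun j => y j ∈ g) = ∅ := by
      rw [Finset.filter_eq_empty_iff]
      intro j _ hj
      exact Finset.disjoint_left.1 hgf hj (mem_image_of_mem y (mem_univ _))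
    have hgp := pt_parts (x := x) (y := y) g
    rw [hJ] at hgp
    have hE : Ed H x y (univ.filter (fun i => x i ∈ g)) ∅ (g \ U x y) :=
      ⟨by rw [hgp]; exact hgH, disjoint_sdiff_self_left⟩
    have hc := hE.card L
    rw [card_empty] at hc
    have hI := (hE.meet L).resolve_right (by simp)
    have hIp := Finset.card_pos.2 hI
    generalize hIdef : univ.filter (fun i => x i ∈ g) = I at hgp hE hc hI hIp
    generalize hQdef : g \ U x y = Q at hgp hE hc
    rw [mem_union, mem_singleton, mem_biUnion]
    have hcases : I.card = 1 ∨ I.card = 2 ∨ I.card = 3 := by omega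
    rcases hcases with h1 | h1 | h1
    · right
      obtain ⟨i, rfl⟩ := Finset.card_eq_one.1 h1
      refine ⟨i, mem_univ _, ?_⟩
      rw [mem_union]
      right
      rw [mem_image]
      exact ⟨Q, mem_P.2 ⟨hE, by omega⟩, hgp⟩
    · right
      obtain ⟨w, rfl⟩ := Finset.card_eq_one.1 (show Q.card = 1 by omega)
      have hex : ∃ i : Fin 3, I = univ.erase i := by
        clear hgp hE hI hIdef hc hIp
        revert I
        decide
      obtain ⟨i, rfl⟩ := hex
      refine ⟨i, mem_univ _, ?_⟩
      rw [mem_union]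
      left
      rw [mem_image]
      exact ⟨w, mem_S.2 hE, hgp⟩
    · left
      have hIu : I = univ := by
        rw [← Finset.card_eq_iff_eq_univ, h1]
        rfl
      have hQ0 : Q = ∅ := by
        rw [← Finset.card_eq_zero]
        omega
      rw [← hgp, hIu, hQ0, pt_e]
  have h1 := card_le_card hsub
  have h2 := card_union_le {univ.image x} (univ.biUnion (fun i : Fin 3 =>
        (S H x y i).image (fun w => pt x y (univ.erase i) ∅ {w}) ∪
        (P H x y i).image (fun q => pt x y {i} ∅ q)))
  have h3 : (univ.biUnion (fun i : Fin 3 =>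
        (S H x y i).image (fun w => pt x y (univ.erase i) ∅ {w}) ∪
        (P H x y i).image (fun q => pt x y {i} ∅ q))).card ≤
      ∑ i : Fin 3, ((S H x y i).card + (P H x y i).card) := by
    refine card_biUnion_le.trans (Finset.sum_le_sum fun i _ => ?_)
    refine (card_union_le _ _).trans ?_
    exact Nat.add_le_add card_image_le card_image_le
  rw [Fin.sum_univ_three] at h3
  rw [card_singleton] at h2
  omega

end B46

end Res12
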