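import Mathlib
import Pool.Agent.Helper10.Res.Own

/-!
Project RES (MP_d365ae_co), helper10: the edges which meet both blocks.
-/

namespace Res12

open Finset

set_option linter.unusedSectionVars false

variable {V : Type} [Fintype V] [DecidableEq V]

namespace B46

variable {H : Finset (Finset V)} {x y : Fin 3 → V}

theorem Av.cell_sub (L : Loc H x y) {i j : Fin 3} {I1 J1 : Finset (Fin 3)} {Q1 : Finset V}
    {I2 J2 : Finset (Fin 3)} {Q2 : Finset V}
    (h : Av H x y (x i) (y j) I1 J1 Q1 I2 J2 Q2) : D H x y i j ⊆ Q1 ∪ Q2 := by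
  intro w hw
  by_contra hcon
  rw [mem_union, not_or] at hcon
  exact L.no3 (mem_D.1 hw) h.h1 h.h2 (disjoint_singleton_left.2 (x_notMem h.a1))
    (disjoint_singleton_left.2 (x_notMem h.a2)) h.dI
    (disjoint_singleton_left.2 (y_notMem h.b1)) (disjoint_singleton_left.2 (y_notMem h.b2)) h.dJ
    (disjoint_singleton_left.2 hcon.1) (disjoint_singleton_left.2 hcon.2) h.dQ

theorem Av.cell_aux (L : Loc H x y) {i j : Fin 3} {I1 J1 : Finset (Fin 3)} {Q1 : Finset V}
    {I2 J2 : Finset (Fin 3)} {Q2 : Finset V}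
    (h : Av H x y (x i) (y j) I1 J1 Q1 I2 J2 Q2) (h4 : (D H x y i j).card = 4)
    (hn : I1.Nonempty) : ∃ v v' : Fin 3, ∃ Q1 Q2 : Finset V, v ≠ i ∧ v' ≠ j ∧
      Ed H x y {v} ∅ Q1 ∧ Ed H x y ∅ {v'} Q2 ∧ Disjoint Q1 Q2 ∧ Q1 ⊆ D H x y i j := by
  have hsub := h.cell_sub L
  have c1 := h.h1.card L
  have c2 := h.h2.card L
  have h5 := card_le_card hsub
  have h6 := card_union_le Q1 Q2
  have p1 := Finset.card_pos.2 hn
  have p2 : 0 < I2.card + J2.card := by
    rcases h.h2.meet L with h7 | h7
    · have := Finset.card_pos.2 h7; omega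
    · have := Finset.card_pos.2 h7; omega
  have e1 : I1.card = 1 := by omega
  have e2 : J1.card = 0 := by omega
  have hJ1 : J1 = ∅ := Finset.card_eq_zero.1 e2
  have hJ2 : J2.Nonempty := (h.meet_f L).resolve_left (by rw [hJ1]; simp)
  have p3 := Finset.card_pos.2 hJ2
  have e3 : J2.card = 1 := by omega
  have e4 : I2.card = 0 := by omega
  have hI2 : I2 = ∅ := Finset.card_eq_zero.1 e4
  obtain ⟨v, rfl⟩ := Finset.card_eq_one.1 e1
  obtain ⟨v', rfl⟩ := Finset.card_eq_one.1 e3
  have heq : D H x y i j = Q1 ∪ Q2 := Finset.eq_of_subset_of_card_le hsub (by omega)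
  refine ⟨v, v', Q1, Q2, ?_, ?_, ?_, ?_, h.dQ, ?_⟩
  · have := x_notMem h.a1
    rw [mem_singleton] at this
    exact fun h0 => this h0.symm
  · have := y_notMem h.b2
    rw [mem_singleton] at this
    exact fun h0 => this h0.symm
  · have := h.h1
    rw [hJ1] at this
    exact this
  · have := h.h2
    rw [hI2] at this
    exact this
  · rw [heq]
    exact subset_union_left

/-- The cell lemma. -/
theorem Loc.cell (L : Loc H x y) (i j : Fin 3) : (D H x y i j).card ≤ 4 ∧
    ((D H x y i j).card = 4 → ∃ v v' : Fin 3, ∃ Q1 Q2 : Finset V, v ≠ i ∧ v' ≠ j ∧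
      Ed H x y {v} ∅ Q1 ∧ Ed H x y ∅ {v'} Q2 ∧ Disjoint Q1 Q2 ∧ Q1 ⊆ D H x y i j) := by
  obtain ⟨I1, J1, Q1, I2, J2, Q2, h⟩ := L.avoid (x i) (y j)
  constructor
  · have hsub := h.cell_sub L
    have c1 := h.h1.card L
    have c2 := h.h2.card L
    have h5 := card_le_card hsub
    have h6 := card_union_le Q1 Q2
    have p1 : 0 < I1.card + J1.card := by
      rcases h.h1.meet L with h7 | h7
      · have := Finset.card_pos.2 h7; omega
      · have := Finset.card_pos.2 h7; omega
    have p2 : 0 < I2.card + J2.card := by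
      rcases h.h2.meet L with h7 | h7
      · have := Finset.card_pos.2 h7; omega
      · have := Finset.card_pos.2 h7; omega
    omega
  · intro h4
    rcases h.meet_e L with h1 | h1
    · exact h.cell_aux L h4 h1
    · exact h.swap.cell_aux L h4 h1

/-- The numerical data. -/
def dN (H : Finset (Finset V)) (x y : Fin 3 → V) (i j : Fin 3) : ℕ := (D H x y i j).card

/-- Indicator of the inner triples with two points in `e`. -/
def tlN (H : Finset (Finset V)) (x y : Fin 3 → V) (v c : Fin 3) : ℕ :=
  if pt x y (univ.erase v) {c} ∅ ∈ H then 1 else 0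

/-- Indicator of the inner triples with two points in `f`. -/
def trN (H : Finset (Finset V)) (x y : Fin 3 → V) (a c : Fin 3) : ℕ :=
  if pt x y {a} (univ.erase c) ∅ ∈ H then 1 else 0

theorem tl_zero {v c : Fin 3} (h : Ed H x y (univ.erase v) {c} ∅ → False) :
    tlN H x y v c = 0 := by
  unfold tlN
  rw [if_neg]
  intro h0
  exact h ⟨h0, disjoint_empty_left _⟩

theorem tr_zero {a c : Fin 3} (h : Ed H x y {a} (univ.erase c) ∅ → False) :
    trN H x y a c = 0 := by
  unfold trN
  rw [if_neg]
  intro h0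
  exact h ⟨h0, disjoint_empty_left _⟩

theorem Loc.arr (L : Loc H x y) : Arr (dN H x y) (tlN H x y) (trN H x y) := by
  constructor
  · intro i j
    exact (L.cell i j).1
  · intro i j
    unfold tlN
    split_ifs <;> omega
  · intro i j
    unfold trN
    split_ifs <;> omega
  · intro i j h4
    obtain ⟨v, v', Q1, Q2, hv, hv', h1, h2, hd, -⟩ := (L.cell i j).2 h4
    refine ⟨v, v', hv, hv', ?_, ?_⟩
    · intro c hc
      refine tl_zero fun h3 => ?_
      exact L.no3 h1 h2 h3 (disjoint_empty_right _) (by simp) (disjoint_empty_left _)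
        (disjoint_empty_left _) (disjoint_empty_left _) (by simpa using hc.symm) hd
        (disjoint_empty_right _) (disjoint_empty_right _)
    · intro a ha
      refine tr_zero fun h3 => ?_
      exact L.no3 h1 h2 h3 (disjoint_empty_right _) (by simpa using ha.symm)
        (disjoint_empty_left _) (disjoint_empty_left _) (disjoint_empty_left _) (by simp) hd
        (disjoint_empty_right _) (disjoint_empty_right _)

theorem TL_eq (q : Fin 3 × Fin 3) (hx : Function.Injective x) :
    B36.TL x y q = pt x y (univ.erase q.1) {q.2} ∅ := by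
  ext z
  rw [mem_pt, B36.TL, mem_insert, mem_erase, mem_image]
  constructor
  · rintro (rfl | ⟨h1, i, -, rfl⟩)
    · right; left
      exact ⟨q.2, mem_singleton_self _, rfl⟩
    · left
      exact ⟨i, mem_erase.2 ⟨fun h0 => h1 (by rw [h0]), mem_univ _⟩, rfl⟩
  · rintro (⟨i, hi, rfl⟩ | ⟨j, hj, rfl⟩ | hz)
    · right
      exact ⟨fun h0 => (mem_erase.1 hi).1 (hx h0), i, mem_univ _, rfl⟩
    · left
      rw [mem_singleton.1 hj]
    · exact absurd hz (notMem_empty _)

theorem TR_eq (q : Fin 3 × Fin 3) (hy : Function.Injective y) :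
    B36.TR x y q = pt x y {q.1} (univ.erase q.2) ∅ := by
  ext z
  rw [mem_pt, B36.TR, mem_insert, mem_erase, mem_image]
  constructor
  · rintro (rfl | ⟨h1, i, -, rfl⟩)
    · left
      exact ⟨q.1, mem_singleton_self _, rfl⟩
    · right; left
      exact ⟨i, mem_erase.2 ⟨fun h0 => h1 (by rw [h0]), mem_univ _⟩, rfl⟩
  · rintro (⟨i, hi, rfl⟩ | ⟨j, hj, rfl⟩ | hz)
    · left
      rw [mem_singleton.1 hi]
    · right
      exact ⟨fun h0 => (mem_erase.1 hj).1 (hy h0), j, mem_univ _, rfl⟩
    · exact absurd hz (notMem_empty _)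

/-- The count of the edges meeting both blocks. -/
theorem Loc.count (L : Loc H x y) :
    (H.filter (fun g => ¬ Disjoint g (univ.image x) ∧ ¬ Disjoint g (univ.image y))).card ≤
      tot (dN H x y) (tlN H x y) (trN H x y) := by
  have h := B36.count L.hyp.three L.hx L.hy L.hxy
  have e1 : (univ.filter (fun q => B36.TL x y q ∉ H)).card +
      ∑ q : Fin 3 × Fin 3, tlN H x y q.1 q.2 = 9 := by
    have h1 : ∑ q : Fin 3 × Fin 3, tlN H x y q.1 q.2 =
        (univ.filter (fun q => B36.TL x y q ∈ H)).card := by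
      rw [Finset.card_filter]
      refine Finset.sum_congr rfl fun q _ => ?_
      rw [TL_eq q L.hx]
      rfl
    rw [h1, add_comm]
    exact Finset.card_filter_add_card_filter_not _
  have e2 : (univ.filter (fun q => B36.TR x y q ∉ H)).card +
      ∑ q : Fin 3 × Fin 3, trN H x y q.1 q.2 = 9 := by
    have h1 : ∑ q : Fin 3 × Fin 3, trN H x y q.1 q.2 =
        (univ.filter (fun q => B36.TR x y q ∈ H)).card := by
      rw [Finset.card_filter]
      refine Finset.sum_congr rfl fun q _ => ?_
      rw [TR_eq q L.hy]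
      rfl
    rw [h1, add_comm]
    exact Finset.card_filter_add_card_filter_not _
  have e3 : ∑ q : Fin 3 × Fin 3,
      (N H (x q.1) (y q.2) \ (univ.image x ∪ univ.image y)).card =
      ∑ q : Fin 3 × Fin 3, dN H x y q.1 q.2 := rfl
  rw [e3] at h
  rw [Fintype.sum_prod_type] at h e1 e2
  simp only [Fin.sum_univ_three] at h e1 e2
  unfold tot
  omega

/-- The perfect matching bounds. -/
theorem Loc.perm (L : Loc H x y) (k : Fin 3) :
    (dN H x y 0 (0 + k) + dN H x y 1 (1 + k) + dN H x y 2 (2 + k)) ≤ 8 ∧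
      (dN H x y 0 (0 + k) + dN H x y 1 (1 + k) + dN H x y 2 (2 + k)) ≤
        6 + ((if dN H x y 0 (0 + k) = 4 then 1 else 0) +
        (if dN H x y 1 (1 + k) = 4 then 1 else 0) +
        (if dN H x y 2 (2 + k) = 4 then 1 else 0)) := by
  have h := B36.no_sdr (fun i => D H x y i (i + k)) (fun i => (L.cell i (i + k)).1) (by
    rintro ⟨w, hw, hwm⟩
    have hE : ∀ i, Ed H x y {i} {i + k} {w i} := fun i => mem_D.1 (hwm i)
    have hne : ∀ i j, i ≠ j → Disjoint ({w i} : Finset V) {w j} := fun i j hij => by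
      rw [disjoint_singleton]
      exact fun h0 => hij (hw h0)
    have hk : ∀ i j : Fin 3, i ≠ j → Disjoint ({i + k} : Finset (Fin 3)) {j + k} := by
      intro i j hij
      rw [disjoint_singleton]
      exact fun h0 => hij (add_right_cancel h0)
    exact L.no3 (hE 0) (hE 1) (hE 2) (by decide) (by decide) (by decide) (hk 0 1 (by decide))
      (hk 0 2 (by decide)) (hk 1 2 (by decide)) (hne 0 1 (by decide)) (hne 0 2 (by decide))
      (hne 1 2 (by decide)))
  rw [Fin.sum_univ_three, Fin.sum_univ_three] at h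
  exact h

/-- Case B: the own graph at `x 0` has at least four edges. -/
theorem Loc.arrB (L : Loc H x y) (h4 : 4 ≤ (P H x y 0).card) :
    ArrB (dN H x y) (tlN H x y) (trN H x y) := by
  refine { L.arr with T := ?_, I1 := ?_, I2 := ?_ }
  · intro j k hjk
    refine (L.gr 0).T h4 (L.cell 1 j).1 (L.cell 2 k).1 ?_
    intro a ha b hb hab q hq
    by_contra hcon
    rw [not_or] at hcon
    exact L.no3 (mem_P.1 hq).1 (mem_D.1 ha) (mem_D.1 hb) (by decide) (by decide) (by decide)
      (disjoint_empty_left _) (disjoint_empty_left _) (by rwa [disjoint_singleton])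
      (disjoint_singleton_right.2 hcon.1) (disjoint_singleton_right.2 hcon.2)
      (by rwa [disjoint_singleton])
  · intro c
    by_contra hcon
    rw [not_or] at hcon
    obtain ⟨w, hw⟩ := Finset.card_pos.1 (Nat.pos_of_ne_zero hcon.2)
    obtain ⟨q, hq, hwq⟩ := (L.gr 0).avoid_one h4 w
    apply hcon.1
    refine tr_zero fun h3 => ?_
    exact L.no3 (mem_P.1 hq).1 h3 (mem_D.1 hw) (by decide) (by decide) (by decide)
      (disjoint_empty_left _) (disjoint_empty_left _) (by simp) (disjoint_empty_right _)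
      (disjoint_singleton_right.2 hwq) (disjoint_empty_left _)
  · intro c
    by_contra hcon
    rw [not_or] at hcon
    obtain ⟨w, hw⟩ := Finset.card_pos.1 (Nat.pos_of_ne_zero hcon.2)
    obtain ⟨q, hq, hwq⟩ := (L.gr 0).avoid_one h4 w
    apply hcon.1
    refine tr_zero fun h3 => ?_
    exact L.no3 (mem_P.1 hq).1 h3 (mem_D.1 hw) (by decide) (by decide) (by decide)
      (disjoint_empty_left _) (disjoint_empty_left _) (by simp) (disjoint_empty_right _)
      (disjoint_singleton_right.2 hwq) (disjoint_empty_left _)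

end B46

end Res12
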