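import Mathlib
import Pool.Agent.Helper10.Res.Cell

/-!
Project RES (MP_d365ae_co), part (b'') of helper10: in a 2-resilient 3-graph `H` with matching
number two and a matching `{e, f}` the number of edges avoiding `f` plus the number of edges
meeting both `e` and `f` is at most 46.
-/

namespace Res12

open Finset

set_option linter.unusedSectionVars false

variable {V : Type} [Fintype V] [DecidableEq V]

namespace B46

variable {H : Finset (Finset V)} {x y : Fin 3 → V}

theorem Gr.cover_card {C : Finset (Finset V)} (hC : Gr C) {R : Finset V}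
    (h : ∀ q ∈ C, ¬ Disjoint q R) : C.card ≤ 3 * R.card := by
  have hsub : C ⊆ R.biUnion (fun z => C.filter (fun q => z ∈ q)) := by
    intro q hq
    obtain ⟨z, hz, hz'⟩ := Finset.not_disjoint_iff.1 (h q hq)
    rw [mem_biUnion]
    exact ⟨z, hz', mem_filter.2 ⟨hq, hz⟩⟩
  refine (card_le_card hsub).trans ?_
  rw [mul_comm]
  exact Finset.card_biUnion_le_card_mul _ _ _ (fun z _ => hC.deg z)

theorem Gr.no_cover {C : Finset (Finset V)} (hC : Gr C) (h7 : 7 ≤ C.card) {R : Finset V}
    (hR : R.card ≤ 2) : ∃ q ∈ C, Disjoint q R := by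
  by_contra hcon
  push Not at hcon
  have := hC.cover_card hcon
  omega

section A

/-- No edge avoids `f` and `x 0`. -/
theorem Loc.a1 (L : Loc H x y) (h7 : 7 ≤ (P H x y 0).card) {I : Finset (Fin 3)} {Q : Finset V}
    (h : Ed H x y I ∅ Q) (h0 : (0 : Fin 3) ∉ I) : False := by
  have c := h.card L
  rw [card_empty] at c
  have p := Finset.card_pos.2 ((h.meet L).resolve_right (by simp))
  obtain ⟨q, hq, hd⟩ := (L.gr 0).no_cover h7 (R := Q) (by omega)
  exact L.crossP hq h h0 hd

theorem Av.big2 (L : Loc H x y) (h7 : 7 ≤ (P H x y 0).card) {b : V} {I1 J1 : Finset (Fin 3)}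
    {Q1 : Finset V} {I2 J2 : Finset (Fin 3)} {Q2 : Finset V}
    (h : Av H x y (x 0) b I1 J1 Q1 I2 J2 Q2) : J1.Nonempty ∧ J2.Nonempty ∧
      (Q1 ∪ Q2).card = 3 := by
  have i1 := x_notMem h.a1
  have i2 := x_notMem h.a2
  rcases h.size L with ⟨hJ, hc⟩ | ⟨hJ, hc⟩ | ⟨hJ1, hJ2, hc⟩
  · have h1 := h.h1
    rw [hJ] at h1
    exact (L.a1 h7 h1 i1).elim
  · have h1 := h.h2
    rw [hJ] at h1
    exact (L.a1 h7 h1 i2).elim
  · refine ⟨hJ1, hJ2, ?_⟩
    by_contra hne
    obtain ⟨q, hq, hd⟩ := (L.gr 0).no_cover h7 (R := Q1 ∪ Q2) (by omega)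
    exact h.hit L i1 i2 hq hd

theorem Loc.a3 (L : Loc H x y) (h7 : 7 ≤ (P H x y 0).card) (j : Fin 3) :
    (D H x y 0 j).card ≤ 3 := by
  obtain ⟨I1, J1, Q1, I2, J2, Q2, h⟩ := L.avoid (x 0) (y j)
  exact (card_le_card (h.cell_sub L)).trans (h.big2 L h7).2.2.le

theorem Loc.a4 (L : Loc H x y) (h7 : 7 ≤ (P H x y 0).card) (j : Fin 3) :
    ∃ k, k ≠ j ∧ ∃ Q, Ed H x y ∅ {k} Q := by
  obtain ⟨I1, J1, Q1, I2, J2, Q2, h⟩ := L.avoid (x 0) (y j)
  obtain ⟨hJ1, hJ2, hQ⟩ := h.big2 L h7
  have c1 := h.h1.card L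
  have c2 := h.h2.card L
  have p1 := Finset.card_pos.2 hJ1
  have p2 := Finset.card_pos.2 hJ2
  have j1 := y_notMem h.b1
  have j2 := y_notMem h.b2
  rw [card_union_of_disjoint h.dQ] at hQ
  rcases I1.eq_empty_or_nonempty with hI | hI
  · have hI2 := Finset.card_pos.2 ((h.meet_e L).resolve_left (by rw [hI]; simp))
    have h0 : I1.card = 0 := by rw [hI]; rfl
    obtain ⟨k, rfl⟩ := Finset.card_eq_one.1 (show J1.card = 1 by omega)
    refine ⟨k, fun h0 => j1 (by rw [h0]; simp), Q1, ?_⟩
    have := h.h1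
    rw [hI] at this
    exact this
  · have hI1 := Finset.card_pos.2 hI
    obtain ⟨k, rfl⟩ := Finset.card_eq_one.1 (show J2.card = 1 by omega)
    refine ⟨k, fun h0 => j2 (by rw [h0]; simp), Q2, ?_⟩
    have h0 : I2 = ∅ := Finset.card_eq_zero.1 (by omega)
    have := h.h2
    rw [h0] at this
    exact this

theorem Loc.a5 (L : Loc H x y) (h7 : 7 ≤ (P H x y 0).card) {I J I' J' : Finset (Fin 3)}
    {Q Q' : Finset V} (h : Ed H x y I J Q) (h' : Ed H x y I' J' Q') (h0 : (0 : Fin 3) ∉ I)
    (h0' : (0 : Fin 3) ∉ I') (hI : Disjoint I I') (hJ : Disjoint J J') (hQ : Disjoint Q Q')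
    (hc : (Q ∪ Q').card ≤ 2) : False := by
  obtain ⟨q, hq, hd⟩ := (L.gr 0).no_cover h7 hc
  rw [disjoint_union_right] at hd
  exact L.no3 (mem_P.1 hq).1 h h' (disjoint_singleton_left.2 h0) (disjoint_singleton_left.2 h0')
    hI (disjoint_empty_left _) (disjoint_empty_left _) hJ hd.1 hd.2 hQ

theorem Loc.a6 (L : Loc H x y) (h7 : 7 ≤ (P H x y 0).card) {r : Fin 3} (hr : r ≠ 0)
    {j : Fin 3} (h4 : (D H x y r j).card = 4) : (P H x y 0).card ≤ 7 := by
  obtain ⟨v, v', Q1, Q2, hv, hv', h1, h2, hd, hs⟩ := (L.cell r j).2 h4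
  have hv0 : v = 0 := by
    by_contra hne
    exact L.a1 h7 h1 (by
      rw [mem_singleton]
      exact fun h0 => hne h0.symm)
  subst hv0
  have c1 := h1.card L
  have c2 := h2.card L
  rw [card_singleton, card_empty] at c1 c2
  have key : ∀ q ∈ P H x y 0, Disjoint q Q2 → Q1 = q := by
    intro q hq hq2
    refine Finset.eq_of_subset_of_card_le ?_ (by
      have := (L.gr 0).two q hq
      omega)
    intro w hw
    by_contra hcon
    exact L.no3 (mem_P.1 hq).1 (mem_D.1 (hs hw)) h2 (by
        rw [disjoint_singleton]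
        exact fun h0 => hr h0.symm) (disjoint_empty_right _) (disjoint_empty_right _)
      (disjoint_empty_left _) (disjoint_empty_left _) (by
        rw [disjoint_singleton]
        exact fun h0 => hv' h0.symm) (disjoint_singleton_right.2 hcon) hq2
      (disjoint_singleton_left.2 fun h0 => Finset.disjoint_left.1 hd hw h0)
  have hsub : P H x y 0 ⊆ {Q1} ∪ (P H x y 0).filter (fun q => ¬ Disjoint q Q2) := by
    intro q hq
    rw [mem_union, mem_singleton, mem_filter]
    by_cases h : Disjoint q Q2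
    · left; exact (key q hq h).symm
    · right; exact ⟨hq, h⟩
  have hg : Gr ((P H x y 0).filter (fun q => ¬ Disjoint q Q2)) := by
    constructor
    · intro q hq
      exact (L.gr 0).two q (mem_filter.1 hq).1
    · intro w
      refine (card_le_card ?_).trans ((L.gr 0).deg w)
      exact filter_subset_filter _ (filter_subset _ _)
  have h5 := hg.cover_card (R := Q2) (fun q hq => (mem_filter.1 hq).2)
  have h6 := card_le_card hsub
  have h8 := card_union_le {Q1} ((P H x y 0).filter (fun q => ¬ Disjoint q Q2))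
  rw [card_singleton] at h8
  have h9 : Q2.card = 2 := by omega
  omega

/-- Case A. -/
theorem Loc.caseA (L : Loc H x y) (h7 : 7 ≤ (P H x y 0).card) :
    (H.filter (fun g => Disjoint g (univ.image y))).card +
      (H.filter (fun g => ¬ Disjoint g (univ.image x) ∧ ¬ Disjoint g (univ.image y))).card
      ≤ 46 := by
  have e1 := L.count_own
  have e2 := L.count
  have s0 : (S H x y 0).card = 0 := by
    rcases L.own 0 with h | h | h <;> omega
  have s1 := L.S_card 1
  have s2 := L.S_card 2
  have p1 : (P H x y 1).card = 0 := by rw [L.other7 (by decide) h7]; rfl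
  have p2 : (P H x y 2).card = 0 := by rw [L.other7 (by decide) h7]; rfl
  obtain ⟨I1, J1, Q1, I2, J2, Q2, hav⟩ := L.avoid (x 0) (x 0)
  have p0 : (P H x y 0).card ≤ 9 := by
    have := (L.gr 0).cover_card (R := Q1 ∪ Q2) (fun q hq =>
      hav.hit L (x_notMem hav.a1) (x_notMem hav.a2) hq)
    rw [(hav.big2 L h7).2.2] at this
    omega
  obtain ⟨k1, hk1, R1, hR1⟩ := L.a4 h7 0
  obtain ⟨k2, hk2, R2, hR2⟩ := L.a4 h7 k1
  have hcR1 := hR1.card L
  have hcR2 := hR2.card L
  rw [card_empty, card_singleton] at hcR1 hcR2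
  have hl : ∀ c, tlN H x y 0 c = 0 := by
    intro c
    refine tl_zero fun h3 => ?_
    by_cases hc : c = k1
    · exact L.a5 h7 h3 hR2 (by simp) (notMem_empty _) (disjoint_empty_right _) (by
        rw [disjoint_singleton, hc]
        exact fun h0 => hk2 h0.symm) (disjoint_empty_left _) (by
        rw [empty_union]
        omega)
    · exact L.a5 h7 h3 hR1 (by simp) (notMem_empty _) (disjoint_empty_right _) (by
        rw [disjoint_singleton]
        exact hc) (disjoint_empty_left _) (by
        rw [empty_union]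
        omega)
  have ht : ∀ k R, Ed H x y ∅ {k} R → R.card = 2 → ∀ a, a ≠ 0 → trN H x y a k = 0 := by
    intro k R hR hRc a ha
    refine tr_zero fun h3 => ?_
    exact L.a5 h7 h3 hR (by
      rw [mem_singleton]
      exact fun h0 => ha h0.symm) (notMem_empty _) (disjoint_empty_right _) (by simp)
      (disjoint_empty_left _) (by
        rw [empty_union]
        omega)
  have hT : ∀ j k, j ≠ k → dN H x y 1 j = 0 ∨ dN H x y 2 k = 0 ∨
      (dN H x y 1 j = 1 ∧ dN H x y 2 k = 1) := by
    intro j k hjk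
    by_contra hcon
    push Not at hcon
    obtain ⟨c1, c2, c3⟩ := hcon
    obtain ⟨w, hw⟩ := Finset.card_pos.1 (Nat.pos_of_ne_zero c1)
    obtain ⟨w', hw'⟩ := Finset.card_pos.1 (Nat.pos_of_ne_zero c2)
    have hex : ∃ u ∈ D H x y 1 j, ∃ u' ∈ D H x y 2 k, u ≠ u' := by
      by_contra hh
      push Not at hh
      have d1 : (D H x y 1 j).card ≤ 1 := by
        rw [Finset.card_le_one]
        intro a ha b hb
        rw [hh a ha w' hw', hh b hb w' hw']
      have d2 : (D H x y 2 k).card ≤ 1 := by
        rw [Finset.card_le_one]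
        intro a ha b hb
        rw [← hh w hw a ha, ← hh w hw b hb]
      have e1 : dN H x y 1 j = 1 := by
        unfold dN at c1 ⊢
        omega
      have e2 : dN H x y 2 k = 1 := by
        unfold dN at c2 ⊢
        omega
      exact c3 e1 e2
    obtain ⟨u, hu, u', hu', hne⟩ := hex
    refine L.a5 h7 (mem_D.1 hu) (mem_D.1 hu') (by decide) (by decide) (by decide)
      (by rwa [disjoint_singleton]) (by rwa [disjoint_singleton]) ?_
    exact card_le_two
  obtain ⟨m1, m2⟩ := L.arr.caseA (L.a3 h7) hl (c1 := k1) (c2 := k2) hk2.symm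
    (ht k1 R1 hR1 (by omega) 1 (by decide)) (ht k2 R2 hR2 (by omega) 1 (by decide))
    (ht k1 R1 hR1 (by omega) 2 (by decide)) (ht k2 R2 hR2 (by omega) 2 (by decide)) hT
  by_cases hf : ∀ r, r ≠ 0 → ∀ j, dN H x y r j ≠ 4
  · have := m2 hf
    omega
  · push Not at hf
    obtain ⟨r, hr, j, hj⟩ := hf
    have := L.a6 h7 hr hj
    omega

end A

/-- Case B. -/
theorem Loc.caseB (L : Loc H x y) (h4 : 4 ≤ (P H x y 0).card) (h6 : (P H x y 0).card ≤ 6) :
    (H.filter (fun g => Disjoint g (univ.image y))).card +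
      (H.filter (fun g => ¬ Disjoint g (univ.image x) ∧ ¬ Disjoint g (univ.image y))).card
      ≤ 46 := by
  have e1 := L.count_own
  have e2 := L.count
  have e3 := (L.arrB h4).le
  have s0 : (S H x y 0).card = 0 := by
    rcases L.own 0 with h | h | h <;> omega
  have s1 := L.other (i := 0) (r := 1) (by decide) h4
  have s2 := L.other (i := 0) (r := 2) (by decide) h4
  omega

section C

/-- A bad index forbids two full cells in the other rows and different columns. -/
theorem Loc.bad_line (L : Loc H x y) {i : Fin 3} (hS : (S H x y i).card = 1)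
    (hP : (P H x y i).card = 3) {a b j k : Fin 3} (hab : a ≠ b) (ha : a ≠ i) (hb : b ≠ i)
    (hjk : j ≠ k) (h1 : (D H x y a j).card = 4) (h2 : (D H x y b k).card = 4) : False := by
  obtain ⟨c, hc⟩ := Finset.card_eq_one.1 hS
  have hcS : c ∈ S H x y i := by rw [hc]; simp
  obtain ⟨w, hw⟩ : ((D H x y a j).erase c).Nonempty := by
    rw [← Finset.card_pos]
    have := Finset.pred_card_le_card_erase (s := D H x y a j) (a := c)
    omega
  obtain ⟨w', hw'⟩ : (((D H x y b k).erase c).erase w).Nonempty := by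
    rw [← Finset.card_pos]
    have := Finset.pred_card_le_card_erase (s := D H x y b k) (a := c)
    have := Finset.pred_card_le_card_erase (s := (D H x y b k).erase c) (a := w)
    omega
  rw [mem_erase] at hw
  rw [mem_erase, mem_erase] at hw'
  have hex : ∃ q ∈ P H x y i, w ∉ q ∧ w' ∉ q := by
    by_contra hcon
    push Not at hcon
    have hsub : P H x y i ⊆ {{c, w}, {c, w'}} := by
      intro q hq
      have hcq := L.S_mem hcS hq
      have hpair : ∀ z, z ≠ c → z ∈ q → q = {c, z} := by
        intro z hz hzq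
        symm
        refine Finset.eq_of_subset_of_card_le ?_ (by
          rw [(L.gr i).two q hq, Finset.card_pair hz.symm])
        intro u hu
        rw [mem_insert, mem_singleton] at hu
        rcases hu with rfl | rfl <;> assumption
      rw [mem_insert, mem_singleton]
      by_cases h : w ∈ q
      · left; exact hpair w hw.1 h
      · right; exact hpair w' hw'.2.1 (hcon q hq h)
    have := card_le_card hsub
    have h5 : ({{c, w}, {c, w'}} : Finset (Finset V)).card ≤ 2 := card_le_two
    omega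
  obtain ⟨q, hq, h3, h4⟩ := hex
  exact L.no3 (mem_P.1 hq).1 (mem_D.1 hw.2) (mem_D.1 hw'.2.2)
    (by rw [disjoint_singleton]; exact ha.symm) (by rw [disjoint_singleton]; exact hb.symm)
    (by rwa [disjoint_singleton]) (disjoint_empty_left _) (disjoint_empty_left _)
    (by rwa [disjoint_singleton]) (disjoint_singleton_right.2 h3)
    (disjoint_singleton_right.2 h4) (by
      rw [disjoint_singleton]
      exact fun h0 => hw'.1 h0.symm)

theorem third_col : ∀ a b : Fin 3, a ≠ b → ∃ b' : Fin 3, a ≠ b' ∧ b ≠ b' := by decide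

theorem Av.caseC_aux (L : Loc H x y) {c : V} (hcS : c ∈ S H x y 0) {I1 J1 : Finset (Fin 3)} {Q1 : Finset V} {I2 J2 : Finset (Fin 3)}
    {Q2 : Finset V} (h : Av H x y (x 0) c I1 J1 Q1 I2 J2 Q2) (hJ1 : J1.Nonempty)
    (hJ2 : J2.Nonempty) (hQ : (Q1 ∪ Q2).card = 3)
    (hP' : ∀ z ∈ Q1 ∪ Q2, ({c, z} : Finset V) ∈ P H x y 0) (hI1 : I1 = ∅) :
    ∃ a b b' m : Fin 3, a ≠ b ∧ a ≠ b' ∧ b ≠ b' ∧ m ≠ 0 ∧ tlN H x y 0 b = 0 ∧
      tlN H x y 0 b' = 0 ∧ trN H x y 0 a = 0 ∧ trN H x y 1 a = 0 ∧ trN H x y 2 a = 0 ∧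
      trN H x y m b = 0 := by
  have c1 := h.h1.card L
  have c2 := h.h2.card L
  have q1 := Finset.card_pos.2 hJ1
  have q2 := Finset.card_pos.2 hJ2
  rw [card_union_of_disjoint h.dQ] at hQ
  have hI2 := Finset.card_pos.2 ((h.meet_e L).resolve_left (by rw [hI1]; simp))
  have h01 : I1.card = 0 := by rw [hI1]; rfl
  obtain ⟨a, rfl⟩ := Finset.card_eq_one.1 (show J1.card = 1 by omega)
  obtain ⟨b, rfl⟩ := Finset.card_eq_one.1 (show J2.card = 1 by omega)
  obtain ⟨m, rfl⟩ := Finset.card_eq_one.1 (show I2.card = 1 by omega)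
  obtain ⟨w, rfl⟩ := Finset.card_eq_one.1 (show Q2.card = 1 by
    rw [card_singleton] at c1 c2
    omega)
  have hQ1c : Q1.card = 2 := by
    rw [card_singleton] at hQ
    omega
  subst hI1
  have hm0 : m ≠ 0 := by
    have := x_notMem h.a2
    rw [mem_singleton] at this
    exact fun h0 => this h0.symm
  have hab : a ≠ b := by
    have := h.dJ
    rwa [disjoint_singleton] at this
  obtain ⟨b', hab', hbb'⟩ := third_col a b hab
  obtain ⟨m', hm'0, hmm'⟩ := third_col 0 m hm0.symm
  have hcQ1 := w_notMem h.b1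
  have hcw : c ≠ w := by
    have := w_notMem h.b2
    rwa [mem_singleton] at this
  have hwQ1 : w ∉ Q1 := by
    have := h.dQ
    rwa [disjoint_singleton_right] at this
  have hEw : Ed H x y {0} ∅ {c, w} := (mem_P.1 (hP' w (by simp))).1
  have hdw : Disjoint ({c, w} : Finset V) Q1 := by
    rw [Finset.disjoint_left]
    intro z hz
    rw [mem_insert, mem_singleton] at hz
    rcases hz with rfl | rfl <;> assumption
  have hTL : ∀ b, a ≠ b → tlN H x y 0 b = 0 := by
    intro b hb
    refine tl_zero fun h3 => ?_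
    exact L.no3 h3 hEw h.h1 (by simp) (disjoint_empty_right _) (disjoint_empty_right _)
      (disjoint_empty_right _) (by rw [disjoint_singleton]; exact hb.symm)
      (disjoint_empty_left _) (disjoint_empty_left _) (disjoint_empty_left _) hdw
  have hTR : ∀ r, r ≠ 0 → trN H x y r a = 0 := by
    intro r hr
    refine tr_zero fun h3 => ?_
    exact L.no3 h3 hEw h.h1 (by rwa [disjoint_singleton]) (disjoint_empty_right _)
      (disjoint_empty_right _) (disjoint_empty_right _) (by simp) (disjoint_empty_left _)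
      (disjoint_empty_left _) (disjoint_empty_left _) hdw
  have hTR0 : trN H x y 0 a = 0 := by
    refine tr_zero fun h3 => ?_
    exact L.no3 h3 (mem_S.1 hcS) h.h1 (by simp) (disjoint_empty_right _)
      (disjoint_empty_right _) (disjoint_empty_right _) (by simp) (disjoint_empty_left _)
      (disjoint_empty_left _) (disjoint_empty_left _) (disjoint_singleton_left.2 hcQ1)
  obtain ⟨l, hl⟩ := Finset.card_pos.1 (show 0 < Q1.card by omega)
  have hEl : Ed H x y {0} ∅ {c, l} := (mem_P.1 (hP' l (mem_union_left _ hl))).1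
  have hlw : l ≠ w := by
    rintro rfl
    exact hwQ1 hl
  have hTRm : trN H x y m' b = 0 := by
    refine tr_zero fun h3 => ?_
    exact L.no3 h3 hEl h.h2 (by rw [disjoint_singleton]; exact hm'0.symm)
      (by rw [disjoint_singleton]; exact hmm'.symm)
      (by rw [disjoint_singleton]; exact hm0.symm) (disjoint_empty_right _) (by simp)
      (disjoint_empty_left _) (disjoint_empty_left _) (disjoint_empty_left _) (by
        rw [disjoint_singleton_right, mem_insert, mem_singleton, not_or]
        exact ⟨hcw.symm, hlw.symm⟩)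
  exact ⟨a, b, b', m', hab, hab', hbb', hm'0.symm, hTL b hab, hTL b' hab', hTR0,
    hTR 1 (by decide), hTR 2 (by decide), hTRm⟩

theorem Loc.caseC_six (L : Loc H x y) (hS : (S H x y 0).card = 1)
    (hP : (P H x y 0).card = 3) :
    ∃ a b b' m : Fin 3, a ≠ b ∧ a ≠ b' ∧ b ≠ b' ∧ m ≠ 0 ∧ tlN H x y 0 b = 0 ∧
      tlN H x y 0 b' = 0 ∧ trN H x y 0 a = 0 ∧ trN H x y 1 a = 0 ∧ trN H x y 2 a = 0 ∧
      trN H x y m b = 0 := by
  obtain ⟨c, hc⟩ := Finset.card_eq_one.1 hS
  have hcS : c ∈ S H x y 0 := by rw [hc]; simp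
  have h2 : ∀ q ∈ P H x y 0, q.card = 2 := (L.gr 0).two
  have hfil : (P H x y 0).filter (fun q => c ∈ q) = P H x y 0 :=
    Finset.filter_true_of_mem fun q hq => L.S_mem hcS hq
  obtain ⟨I1, J1, Q1, I2, J2, Q2, h⟩ := L.avoid (x 0) c
  have i1 := x_notMem h.a1
  have i2 := x_notMem h.a2
  have w1 := w_notMem h.b1
  have w2 := w_notMem h.b2
  rcases h.size L with ⟨hJ, hQ⟩ | ⟨hJ, hQ⟩ | ⟨hJ1, hJ2, hQ⟩
  · have h1 := h.h1
    rw [hJ] at h1
    have := star_card h2 w1 (fun q hq _ => L.crossP hq h1 i1)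
    rw [hfil] at this
    omega
  · have h1 := h.h2
    rw [hJ] at h1
    have := star_card h2 w2 (fun q hq _ => L.crossP hq h1 i2)
    rw [hfil] at this
    omega
  · have hcn : c ∉ Q1 ∪ Q2 := by
      rw [mem_union]
      exact not_or.2 ⟨w1, w2⟩
    have hsub : P H x y 0 ⊆ (Q1 ∪ Q2).image (fun z => ({c, z} : Finset V)) := by
      intro q hq
      obtain ⟨z, hz, hz'⟩ := Finset.not_disjoint_iff.1 (h.hit L i1 i2 hq)
      have hne : c ≠ z := by
        rintro rfl
        exact hcn hz'
      rw [mem_image]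
      refine ⟨z, hz', ?_⟩
      refine Finset.eq_of_subset_of_card_le ?_ (by rw [h2 q hq, Finset.card_pair hne])
      intro u hu
      rw [mem_insert, mem_singleton] at hu
      rcases hu with rfl | rfl
      · exact L.S_mem hcS hq
      · exact hz
    have hle := card_le_card hsub
    have him : ((Q1 ∪ Q2).image (fun z => ({c, z} : Finset V))).card ≤ (Q1 ∪ Q2).card :=
      card_image_le
    have hQ3 : (Q1 ∪ Q2).card = 3 := by omega
    have heq := Finset.eq_of_subset_of_card_le hsub (by omega)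
    have hP' : ∀ z ∈ Q1 ∪ Q2, ({c, z} : Finset V) ∈ P H x y 0 := by
      intro z hz
      rw [heq]
      exact mem_image_of_mem _ hz
    rcases I1.eq_empty_or_nonempty with hI | hI
    · exact h.caseC_aux L hcS hJ1 hJ2 hQ3 hP' hI
    · have c1 := h.h1.card L
      have c2 := h.h2.card L
      have p1 := Finset.card_pos.2 hI
      have p2 := Finset.card_pos.2 hJ1
      have p3 := Finset.card_pos.2 hJ2
      have hQs := card_union_of_disjoint h.dQ
      have hI2 : I2 = ∅ := Finset.card_eq_zero.1 (by omega)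
      refine h.swap.caseC_aux L hcS hJ2 hJ1 ?_ ?_ hI2
      · rw [union_comm]
        exact hQ3
      · intro z hz
        rw [union_comm] at hz
        exact hP' z hz

/-- Case C. -/
theorem Loc.caseC (L : Loc H x y) (hS : (S H x y 0).card = 1) (hP : (P H x y 0).card = 3)
    (h4 : ∀ i, (P H x y i).card ≤ 3) :
    (H.filter (fun g => Disjoint g (univ.image y))).card +
      (H.filter (fun g => ¬ Disjoint g (univ.image x) ∧ ¬ Disjoint g (univ.image y))).card
      ≤ 46 := by
  have e1 := L.count_own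
  have e2 := L.count
  have o1 := L.own 1
  have o2 := L.own 2
  have f1 := h4 1
  have f2 := h4 2
  obtain ⟨a, b, b', m, hab, hab', hbb', hm, l1, l2, r1, r2, r3, r4⟩ := L.caseC_six hS hP
  obtain ⟨C1, C2⟩ := L.arr.caseC hab hab' hbb' hm l1 l2 r1 r2 r3 r4 L.perm
  by_cases hl : ∀ i j i' j', dN H x y i j = 4 → dN H x y i' j' = 4 → i = i' ∨ j = j'
  · have := C1 hl
    omega
  · push Not at hl
    obtain ⟨i, j, i', j', d1, d2, hi, hj⟩ := hl
    have hne : ¬ (((S H x y 1).card = 1 ∧ (P H x y 1).card = 3) ∧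
        ((S H x y 2).card = 1 ∧ (P H x y 2).card = 3)) := by
      rintro ⟨b1, b2⟩
      have hthird : ∃ m : Fin 3, i ≠ m ∧ i' ≠ m := third_col i i' hi
      obtain ⟨m, hm1, hm2⟩ := hthird
      have hbad : (S H x y m).card = 1 ∧ (P H x y m).card = 3 := by
        obtain rfl | rfl | rfl := fin3 m
        · exact ⟨hS, hP⟩
        · exact b1
        · exact b2
      exact L.bad_line hbad.1 hbad.2 hi hm1 hm2 hj d1 d2
    have hex : ∃ v c0, v ≠ 0 ∧ (∀ c, c ≠ c0 → tlN H x y v c = 0) := by
      by_cases h0 : i = 0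
      · subst h0
        obtain ⟨v, v', hv, -, k1, -⟩ := L.arr.full 0 j d1
        exact ⟨v, v', hv, k1⟩
      · by_cases h0' : i' = 0
        · subst h0'
          obtain ⟨v, v', hv, -, k1, -⟩ := L.arr.full 0 j' d2
          exact ⟨v, v', hv, k1⟩
        · exact (L.bad_line hS hP hi h0 h0' hj d1 d2).elim
    have := C2 hex
    omega

end C

/-- Re-enumeration of `e`. -/
theorem Loc.perm_x (L : Loc H x y) (σ : Equiv.Perm (Fin 3)) :
    Loc H (x ∘ σ) y ∧ univ.image (x ∘ σ) = univ.image x := by
  have h1 : univ.image (x ∘ σ) = univ.image x := by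
    rw [← Finset.image_image]
    congr 1
    exact Finset.image_univ_equiv σ
  exact ⟨⟨L.hyp, L.hx.comp σ.injective, L.hy, fun i j => L.hxy _ _, by rw [h1]; exact L.he,
    L.hf⟩, h1⟩

theorem U_perm (σ : Equiv.Perm (Fin 3)) : U (x ∘ σ) y = U x y := by
  unfold U
  congr 1
  rw [← Finset.image_image]
  congr 1
  exact Finset.image_univ_equiv σ

theorem pt_perm (σ : Equiv.Perm (Fin 3)) (I J : Finset (Fin 3)) (Q : Finset V) :
    pt (x ∘ σ) y I J Q = pt x y (I.image σ) J Q := by
  unfold pt
  rw [Finset.image_image]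

theorem P_perm (σ : Equiv.Perm (Fin 3)) (i : Fin 3) :
    P H (x ∘ σ) y i = P H x y (σ i) := by
  unfold P
  rw [U_perm]
  refine Finset.filter_congr fun q _ => ?_
  rw [pt_perm, image_singleton]

theorem S_perm (σ : Equiv.Perm (Fin 3)) (i : Fin 3) :
    S H (x ∘ σ) y i = S H x y (σ i) := by
  unfold S
  refine Finset.filter_congr fun w _ => ?_
  rw [U_perm, pt_perm]
  have : (univ.erase i).image σ = univ.erase (σ i) := by
    rw [Finset.image_erase σ.injective, Finset.image_univ_equiv]
  rw [this]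

/-- The main statement for enumerated blocks. -/
theorem Loc.main (L : Loc H x y) :
    (H.filter (fun g => Disjoint g (univ.image y))).card +
      (H.filter (fun g => ¬ Disjoint g (univ.image x) ∧ ¬ Disjoint g (univ.image y))).card
      ≤ 46 := by
  by_cases hbig : ∃ i, 4 ≤ (P H x y i).card
  · obtain ⟨i, hi⟩ := hbig
    obtain ⟨L', himg⟩ := L.perm_x (Equiv.swap 0 i)
    have hp : P H (x ∘ Equiv.swap 0 i) y 0 = P H x y i := by
      rw [P_perm, Equiv.swap_apply_left]
    rw [← hp] at hi
    rw [← himg]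
    by_cases h7 : 7 ≤ (P H (x ∘ Equiv.swap 0 i) y 0).card
    · exact L'.caseA h7
    · exact L'.caseB hi (by omega)
  · push Not at hbig
    have h4 : ∀ i, (P H x y i).card ≤ 3 := fun i => by
      have := hbig i
      omega
    by_cases hbad : ∃ i, (S H x y i).card = 1 ∧ (P H x y i).card = 3
    · obtain ⟨i, hS, hP⟩ := hbad
      obtain ⟨L', himg⟩ := L.perm_x (Equiv.swap 0 i)
      have hp : P H (x ∘ Equiv.swap 0 i) y 0 = P H x y i := by
        rw [P_perm, Equiv.swap_apply_left]
      have hs : S H (x ∘ Equiv.swap 0 i) y 0 = S H x y i := by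
        rw [S_perm, Equiv.swap_apply_left]
      rw [← himg]
      refine L'.caseC (by rw [hs]; exact hS) (by rw [hp]; exact hP) ?_
      intro j
      rw [P_perm]
      exact h4 _
    · push Not at hbad
      have h3 : ∀ i, (S H x y i).card + (P H x y i).card ≤ 3 := by
        intro i
        have := h4 i
        have := hbad i
        rcases L.own i with h | h | h
        · exact h
        · omega
        · exact absurd h.2 (this h.1)
      have e1 := L.count_own
      have s0 := h3 0
      have s1 := h3 1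
      have s2 := h3 2
      have hd : Disjoint (univ.image x) (univ.image y) := by
        rw [Finset.disjoint_left]
        intro z hz hz'
        rw [mem_image] at hz hz'
        obtain ⟨i, -, rfl⟩ := hz
        obtain ⟨j, -, h⟩ := hz'
        exact L.hxy _ _ h.symm
      have e2 := b36r L.hyp L.he L.hf hd
      omega

end B46

open B46 in
/-- In a 2-resilient 3-graph with matching number two and a matching `{e, f}`: the number of
edges avoiding `f` plus the number of edges meeting both `e` and `f` is at most `46`. -/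
theorem b46r {H : Finset (Finset V)} (h : Hyp H 2) {e f : Finset V} (he : e ∈ H) (hf : f ∈ H)
    (hd : Disjoint e f) :
    (H.filter (fun g => Disjoint g f)).card +
      (H.filter (fun g => ¬ Disjoint g e ∧ ¬ Disjoint g f)).card ≤ 46 := by
  classical
  obtain ⟨x, hx, rfl⟩ := B36.exists_fin (h.three e he)
  obtain ⟨y, hy, rfl⟩ := B36.exists_fin (h.three f hf)
  have hxy : ∀ i j, x i ≠ y j := fun i j h0 => Finset.disjoint_left.1 hd
    (mem_image_of_mem x (mem_univ i)) (h0 ▸ mem_image_of_mem y (mem_univ j))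
  have L : Loc H x y := ⟨h, hx, hy, hxy, he, hf⟩
  exact L.main

end Res12
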