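import Pool.Agent.Helper83.Res.TheoremX
import Pool.Agent.Helper10.Res.B46

/-!
Project RES (MP_d365ae_co): Theorem X for `s ≥ 3` without the case `s = 2`.

If for a maximum matching `N` of the 2-resilient 3-graph `F` with matching number `s ≥ 3` all pair
pieces `F - V(N - e - f)` are 2-resilient with matching number two, then `|F| ≤ C(3s+2,3)`.
-/

namespace Res12

open Finset Res83

set_option linter.unusedSectionVars false

variable {V : Type} [Fintype V] [DecidableEq V]

theorem theoremX46 {F N : Finset (Finset V)} {s : ℕ} (h : Hyp F s) (hs : 3 ≤ s) (hN : N ⊆ F)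
    (hm : IsMatching N) (hc : N.card = s)
    (hpair : ∀ e ∈ N, ∀ f ∈ N, e ≠ f → Hyp (av F (VS (N \ {e, f}))) 2) :
    F.card ≤ (3 * s + 2).choose 3 := by
  classical
  subst hc
  have h3 := h.three
  have hcov : ∀ g ∈ F, (bl N g).Nonempty := by
    intro g hg
    by_contra hcon
    rw [Finset.not_nonempty_iff_eq_empty] at hcon
    have hdis : ∀ b ∈ N, Disjoint b g := by
      intro b hb
      by_contra hd
      have : b ∈ bl N g := mem_bl.2 ⟨hb, hd⟩
      rw [hcon] at this
      simp at this
    apply h.meets hN hm rfl hg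
    rw [Finset.disjoint_left]
    intro v hv hv'
    obtain ⟨b, hb, hvb⟩ := mem_VS.1 hv'
    exact Finset.disjoint_left.1 (hdis b hb) hvb hv
  have hmem : ∀ S ⊆ N, ∀ b ∈ S, b ∈ av F (VS (N \ S)) := by
    intro S hS b hb
    rw [mem_av]
    refine ⟨hN (hS hb), ?_⟩
    rw [Finset.disjoint_left]
    intro v hv hv'
    obtain ⟨b', hb', hvb'⟩ := mem_VS.1 hv'
    rw [mem_sdiff] at hb'
    have hne : b ≠ b' := by
      rintro rfl
      exact hb'.2 hb
    exact Finset.disjoint_left.1 (hm b (hS hb) b' hb'.1 hne) hv hvb'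
  have hlevel2 : ∀ e f : Finset V, F.filter (fun g => bl N g = {e, f}) ⊆
      (av F (VS (N \ {e, f}))).filter (fun g => ¬ Disjoint g e ∧ ¬ Disjoint g f) := by
    intro e f g hg
    rw [mem_filter] at hg ⊢
    refine ⟨mem_av.2 ⟨hg.1, disjoint_VS_sdiff hg.2.le⟩, ?_, ?_⟩
    · have : e ∈ bl N g := by rw [hg.2]; simp
      intro hd
      exact (mem_bl.1 this).2 hd.symm
    · have : f ∈ bl N g := by rw [hg.2]; simp
      intro hd
      exact (mem_bl.1 this).2 hd.symm
  refine countX' h3 hN hm hcov hs ?_ ?_
  · intro S hS hc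
    obtain ⟨e, f, hef, rfl⟩ := Finset.card_eq_two.1 hc
    have heN : e ∈ N := hS (by simp)
    have hfN : f ∈ N := hS (by simp)
    exact le_trans (card_le_card (hlevel2 e f)) (b36r (hpair e heN f hfN hef)
      (hmem {e, f} hS e (by simp)) (hmem {e, f} hS f (by simp)) (hm e heN f hfN hef))
  · intro e heN f hfN hef
    have hS : ({e, f} : Finset (Finset V)) ⊆ N := by
      intro b hb
      simp only [mem_insert, mem_singleton] at hb
      rcases hb with rfl | rfl <;> assumption
    have h46 := b46r (hpair e heN f hfN hef) (hmem {e, f} hS e (by simp))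
      (hmem {e, f} hS f (by simp)) (hm e heN f hfN hef)
    refine le_trans (Nat.add_le_add ?_ (card_le_card (hlevel2 e f))) h46
    refine card_le_card ?_
    intro g hg
    rw [mem_filter] at hg ⊢
    refine ⟨mem_av.2 ⟨hg.1, disjoint_VS_sdiff (by rw [hg.2]; simp)⟩, ?_⟩
    by_contra hd
    have : f ∈ bl N g := mem_bl.2 ⟨hfN, fun h0 => hd h0.symm⟩
    rw [hg.2, mem_singleton] at this
    exact hef this.symm

/-- If no cover-like set obstructs, the bound holds. -/
theorem theoremX46_prime {F : Finset (Finset V)} {s : ℕ} (h : Hyp F s) (hs : 3 ≤ s)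
    (hX : ∀ X : Finset V, X.card + 4 ≤ 3 * s → 2 ≤ nu (av F X)) :
    F.card ≤ (3 * s + 2).choose 3 := by
  classical
  by_cases hne : Nonempty V
  · obtain ⟨v⟩ := hne
    obtain ⟨N, hN, hm, hc, -⟩ := h.avoid v v
    refine theoremX46 h hs hN hm hc ?_
    intro e he f hf hef
    have hS : ({e, f} : Finset (Finset V)) ⊆ N := by
      intro b hb
      simp only [mem_insert, mem_singleton] at hb
      rcases hb with rfl | rfl <;> assumption
    have hS2 : ({e, f} : Finset (Finset V)).card = 2 := Finset.card_pair hef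
    have hle : nu (av F (VS (N \ {e, f}))) ≤ 2 := by
      have := nu_piece_le h hN hm hc hS
      rwa [hS2] at this
    have hVS := card_VS_sdiff hm (fun b hb => h.three b (hN hb)) hS
    rw [hS2, hc] at hVS
    have key : ∀ a b : V, 2 ≤ nu (av (av F (VS (N \ {e, f}))) {a, b}) := by
      intro a b
      rw [av_av]
      apply hX
      have h1 : (VS (N \ {e, f}) ∪ {a, b}).card ≤ (VS (N \ {e, f})).card + 2 :=
        (card_union_le _ _).trans (Nat.add_le_add_left card_le_two _)
      omega
    have h2 : nu (av F (VS (N \ {e, f}))) = 2 :=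
      le_antisymm hle ((key v v).trans (nu_mono (av_subset _ _)))
    have h3 : Hyp (av F (VS (N \ {e, f}))) (nu (av F (VS (N \ {e, f})))) :=
      hyp_of_nu (fun g hg => h.three g (av_subset _ _ hg)) fun a b => by
        rw [h2]
        exact key a b
    rwa [h2] at h3
  · have : F.card = 0 := by
      rw [Finset.card_eq_zero, Finset.eq_empty_iff_forall_notMem]
      intro g hg
      have h1 := h.three g hg
      have h2 : g = ∅ := by
        rw [Finset.eq_empty_iff_forall_notMem]
        intro v _
        exact hne ⟨v⟩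
      rw [h2] at h1
      simp at h1
    omega

end Res12
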